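import Pool.Agent.N316.NV.Den

/-!
A homomorphism `G → Γ` which is given by `g ↦ g e + (1 - e)` in a group algebra is injective on
rational homology.
-/

namespace Pool.Agent.N316.NV

open Finsupp Pool.Agent.Y483

variable {G S : Type} [Group G] [Ring S] [Algebra ℚ S]

/-- `g e + e'` -/
noncomputable def crn (e e' : S) (g : G) : MonoidAlgebra S G :=
  MonoidAlgebra.single g e + MonoidAlgebra.single 1 e'

theorem pr_crn {e e' : S} (h1 : e * e = e) (h2 : e' * e' = e') (h3 : e * e' = 0) (h4 : e' * e = 0)
    (n : ℕ) (x : Fin n → G) (v : MonoidAlgebra S G)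
    (hv : v = MonoidAlgebra.single 1 e * v + MonoidAlgebra.single 1 e' * v) :
    pr n (fun i => crn e e' (x i)) v = single x (MonoidAlgebra.single (pd x) e * v) +
      single (fun _ => 1) (MonoidAlgebra.single 1 e' * v) := by
  induction n with
  | zero =>
    have e0 : x = fun i => i.elim0 := funext fun i => i.elim0
    have e1 : (fun _ => 1 : Fin 0 → G) = fun i => i.elim0 := funext fun i => i.elim0
    have e2 : pd x = 1 := by
      unfold pd
      exact Fin.partialProd_zero x
    rw [e2, e1, e0, ← single_add, ← hv]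
    rfl
  | succ n ih =>
    obtain ⟨g, y, rfl⟩ : ∃ (g : G) (y : Fin n → G), x = Fin.cons g y :=
      ⟨x 0, Fin.tail x, (Fin.cons_self_tail x).symm⟩
    change lop n (crn e e' g) (pr n (fun i => crn e e' (y i)) v) = _
    rw [ih y, pd_cons]
    unfold crn
    rw [lop_add, map_add, map_add, lop_single, lop_single, lop_single, lop_single, ← mul_assoc,
      ← mul_assoc, ← mul_assoc, ← mul_assoc, MonoidAlgebra.single_mul_single,
      MonoidAlgebra.single_mul_single, MonoidAlgebra.single_mul_single,
      MonoidAlgebra.single_mul_single, h1, h2, h3, h4, MonoidAlgebra.single_zero,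
      MonoidAlgebra.single_zero, zero_mul, single_zero, single_zero, add_zero, zero_add, one_mul]
    congr 2
    funext i
    refine Fin.cases ?_ (fun i => ?_) i <;> simp

variable (τ : S →ₗ[ℚ] ℚ) {Γ : Type} [Group Γ] (θ : Γ →* MonoidAlgebra S G)

theorem pd_map {Γ : Type} [Group Γ] (f : G →* Γ) {n : ℕ} (x : Fin n → G) :
    pd (fun i => f (x i)) = f (pd x) := by
  induction n with
  | zero =>
    unfold pd
    rw [show Fin.last 0 = 0 from rfl, Fin.partialProd_zero, Fin.partialProd_zero, map_one]
  | succ n ih =>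
    obtain ⟨g, y, rfl⟩ : ∃ (g : G) (y : Fin n → G), x = Fin.cons g y :=
      ⟨x 0, Fin.tail x, (Fin.cons_self_tail x).symm⟩
    have e : (fun i => f ((Fin.cons g y : Fin (n + 1) → G) i)) =
        (Fin.cons (f g) (fun i => f (y i)) : Fin (n + 1) → Γ) := by
      funext i
      refine Fin.cases ?_ (fun i => ?_) i <;> simp
    rw [e, pd_cons, pd_cons, map_mul, ih]

theorem den_crn {e e' : S} (h1 : e * e = e) (h2 : e' * e' = e') (h3 : e * e' = 0) (h4 : e' * e = 0)
    (f : G →* Γ) (hf : ∀ g, θ (f g) = crn e e' g) (n : ℕ) (z : T n G ℚ) :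
    den τ θ n (mp n f LinearMap.id z) = τ e • z + τ e' • mp n (1 : G →* G) LinearMap.id z := by
  classical
  have h : (den τ θ n) ∘ₗ (mp n f LinearMap.id) =
      τ e • LinearMap.id + τ e' • mp n (1 : G →* G) (LinearMap.id : ℚ →ₗ[ℚ] ℚ) := by
    apply T_ext
    intro x m
    have hv : θ (f (pd x))⁻¹ = crn e e' (pd x)⁻¹ := by rw [← map_inv, hf]
    have e1 : (fun i => θ ((f ∘ x) i)) = fun i => crn e e' (x i) := by
      funext i
      exact hf (x i)
    have e2 : pd (f ∘ x) = f (pd x) := pd_map f x
    rw [LinearMap.comp_apply, mp_single, den_single, e1, e2, hv, pr_crn h1 h2 h3 h4]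
    · rw [map_add, mp_single, mp_single, LinearMap.add_apply, LinearMap.smul_apply,
        LinearMap.smul_apply, LinearMap.id_apply, LinearMap.id_apply, mp_single]
      unfold crn
      rw [mul_add, mul_add, MonoidAlgebra.single_mul_single, MonoidAlgebra.single_mul_single,
        MonoidAlgebra.single_mul_single, MonoidAlgebra.single_mul_single, h1, h2, h3, h4,
        MonoidAlgebra.single_zero, MonoidAlgebra.single_zero, add_zero, zero_add, mul_inv_cancel,
        mul_one, tr1_single, tr1_single, if_pos rfl, if_pos rfl, smul_add, smul_single,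
        smul_single, smul_single, smul_single]
      congr 1
      · congr 1
        simp [mul_comm]
      · rw [LinearMap.id_apply]
        congr 1
        simp [mul_comm]
    · unfold crn
      rw [mul_add, mul_add, MonoidAlgebra.single_mul_single, MonoidAlgebra.single_mul_single,
        MonoidAlgebra.single_mul_single, MonoidAlgebra.single_mul_single, h1, h2, h3, h4,
        MonoidAlgebra.single_zero, MonoidAlgebra.single_zero, add_zero, zero_add, one_mul, one_mul]
  exact DFunLike.congr_fun h z

/-- **Injectivity on rational homology.** -/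
theorem inj_crn {e e' : S} (h1 : e * e = e) (h2 : e' * e' = e') (h3 : e * e' = 0)
    (h4 : e' * e = 0) (hτ : ∀ a b : S, τ (a * b) = τ (b * a)) (he : 0 < τ e) (he' : 0 ≤ τ e')
    (f : G →* Γ) (hf : ∀ g, θ (f g) = crn e e' g) (j : ℕ) (x : HQ j G) (hx : hqMap f j x = 0) :
    x = 0 := by
  obtain ⟨z, hz⟩ := exists_rpr (Rep.trivial ℚ G ℚ) j x
  have h5 := (hz.hq f).eq_zero_iff.mp hx
  obtain ⟨w, hw⟩ := h5
  have h6 : τ e • z + τ e' • mp j (1 : G →* G) LinearMap.id z ∈
      LinearMap.range (dd (tQ G) j) := by
    refine ⟨den τ θ (j + 1) w, ?_⟩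
    rw [dd_den τ θ hτ, ← den_crn τ θ h1 h2 h3 h4 f hf]
    congr 1
  rw [hz.eq_zero_iff]
  cases j with
  | zero =>
    have h7 : mp 0 (1 : G →* G) LinearMap.id z = z := by
      have : mp 0 (1 : G →* G) (LinearMap.id : ℚ →ₗ[ℚ] ℚ) = LinearMap.id := by
        apply T_ext
        intro x m
        rw [mp_single]
        change single _ m = single _ m
        congr 1
        funext i
        exact i.elim0
      rw [this]
      rfl
    rw [h7, ← add_smul] at h6
    have h8 := Submodule.smul_mem _ (τ e + τ e')⁻¹ h6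
    rwa [smul_smul, inv_mul_cancel₀ (by positivity), one_smul] at h8
  | succ j =>
    have h7 : mp (j + 1) (1 : G →* G) LinearMap.id z ∈ LinearMap.range (dd (tQ G) (j + 1)) :=
      one_range (tQ G) (fun _ => rfl) (tQ G) (fun _ => rfl) j z ((cyc_succ _ _ _).mp hz.cyc)
    have h8 := Submodule.sub_mem _ h6 (Submodule.smul_mem _ (τ e') h7)
    rw [add_sub_cancel_right] at h8
    have h9 := Submodule.smul_mem _ (τ e)⁻¹ h8
    rwa [smul_smul, inv_mul_cancel₀ (by positivity), one_smul] at h9

end Pool.Agent.N316.NV
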