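import Pool.Agent.Y483.Main

/-!
The trace map `H_n(Γ; ℚ) → H_n(G; ℚ)` on the level of chains for a group `Γ` of units of a group
algebra `S[G]`, where `S` is a `ℚ`-algebra with a trace.
-/

namespace Pool.Agent.N316.NV

open Finsupp Pool.Agent.Y483

section Ops

variable {G S : Type} [Group G] [Ring S] [Algebra ℚ S]

/-- `s, a ↦ g ⊗ (g s) a` -/
noncomputable def comG (g : G) : S →ₗ[ℚ] MonoidAlgebra S G →ₗ[ℚ] (G →₀ MonoidAlgebra S G) :=
  LinearMap.mk₂ ℚ (fun s a => Finsupp.single g (MonoidAlgebra.single g s * a))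
    (fun s s' a => by rw [MonoidAlgebra.single_add, add_mul, Finsupp.single_add])
    (fun c s a => by
      rw [← MonoidAlgebra.smul_single, smul_mul_assoc, Finsupp.smul_single])
    (fun s a a' => by rw [mul_add, Finsupp.single_add])
    (fun c s a => by rw [mul_smul_comm, Finsupp.smul_single])

theorem comG_apply (g : G) (s : S) (a : MonoidAlgebra S G) :
    comG g s a = Finsupp.single g (MonoidAlgebra.single g s * a) := rfl

/-- `u, a ↦ ∑ g ⊗ (g u(g)) a` -/
noncomputable def com (u : MonoidAlgebra S G) :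
    MonoidAlgebra S G →ₗ[ℚ] (G →₀ MonoidAlgebra S G) :=
  (Finsupp.lsum ℚ fun g => comG (S := S) g) u.coeff

theorem com_single (g : G) (s : S) (a : MonoidAlgebra S G) :
    com (MonoidAlgebra.single g s) a = Finsupp.single g (MonoidAlgebra.single g s * a) := by
  unfold com
  rw [MonoidAlgebra.coeff_single, Finsupp.lsum_single, comG_apply]

theorem com_add (u v : MonoidAlgebra S G) : com (u + v) = com u + com v := by
  unfold com
  rw [MonoidAlgebra.coeff_add, map_add]

theorem com_zero : com (0 : MonoidAlgebra S G) = 0 := by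
  unfold com
  rw [MonoidAlgebra.coeff_zero, map_zero]

/-- `[x] ⊗ a ↦ ∑ [g, x] ⊗ (g u(g)) a` -/
noncomputable def lop (n : ℕ) (u : MonoidAlgebra S G) :
    T n G (MonoidAlgebra S G) →ₗ[ℚ] T (n + 1) G (MonoidAlgebra S G) :=
  lsum ℚ fun x => (lmapDomain (MonoidAlgebra S G) ℚ
    (fun g => (Fin.cons g x : Fin (n + 1) → G))) ∘ₗ (com u)

theorem lop_single (n : ℕ) (g : G) (s : S) (x : Fin n → G) (a : MonoidAlgebra S G) :
    lop n (MonoidAlgebra.single g s) (single x a) =
      single (Fin.cons g x) (MonoidAlgebra.single g s * a) := by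
  unfold lop
  rw [lsum_single, LinearMap.comp_apply, com_single, lmapDomain_apply, mapDomain_single]

theorem lop_add (n : ℕ) (u v : MonoidAlgebra S G) (z : T n G (MonoidAlgebra S G)) :
    lop n (u + v) z = lop n u z + lop n v z := by
  have h : lop n (u + v) = lop n u + lop n v := by
    apply T_ext
    intro x a
    unfold lop
    rw [LinearMap.add_apply, lsum_single, lsum_single, lsum_single, com_add, LinearMap.comp_apply,
      LinearMap.comp_apply, LinearMap.comp_apply, LinearMap.add_apply, map_add]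
  rw [h, LinearMap.add_apply]

theorem lop_zero (n : ℕ) (z : T n G (MonoidAlgebra S G)) :
    lop n (0 : MonoidAlgebra S G) z = 0 := by
  have h : lop n (0 : MonoidAlgebra S G) = 0 := by
    apply T_ext
    intro x a
    unfold lop
    rw [lsum_single, com_zero]
    simp
  rw [h, LinearMap.zero_apply]

/-- multiplication of the coefficients from the left -/
noncomputable def lm (n : ℕ) (u : MonoidAlgebra S G) :
    T n G (MonoidAlgebra S G) →ₗ[ℚ] T n G (MonoidAlgebra S G) :=
  mp n id (LinearMap.mulLeft ℚ u)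

/-- multiplication of the coefficients from the right -/
noncomputable def rm (n : ℕ) (u : MonoidAlgebra S G) :
    T n G (MonoidAlgebra S G) →ₗ[ℚ] T n G (MonoidAlgebra S G) :=
  mp n id (LinearMap.mulRight ℚ u)

theorem lm_single (n : ℕ) (u : MonoidAlgebra S G) (x : Fin n → G) (a : MonoidAlgebra S G) :
    lm n u (single x a) = single x (u * a) := by
  unfold lm
  rw [mp_single]
  rfl

theorem rm_single (n : ℕ) (u : MonoidAlgebra S G) (x : Fin n → G) (a : MonoidAlgebra S G) :
    rm n u (single x a) = single x (a * u) := by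
  unfold rm
  rw [mp_single]
  rfl

theorem lm_add (n : ℕ) (u v : MonoidAlgebra S G) (z : T n G (MonoidAlgebra S G)) :
    lm n (u + v) z = lm n u z + lm n v z := by
  have h : lm n (u + v) = lm n u + lm n v := by
    apply T_ext
    intro x a
    rw [LinearMap.add_apply, lm_single, lm_single, lm_single, add_mul, single_add]
  rw [h, LinearMap.add_apply]

theorem lm_zero (n : ℕ) (z : T n G (MonoidAlgebra S G)) :
    lm n (0 : MonoidAlgebra S G) z = 0 := by
  have h : lm n (0 : MonoidAlgebra S G) = 0 := by
    apply T_ext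
    intro x a
    rw [lm_single, zero_mul, single_zero, LinearMap.zero_apply]
  rw [h, LinearMap.zero_apply]

end Ops

section Faces

variable {G M : Type} [Group G] [AddCommGroup M] [Module ℚ M]

/-- The faces given by multiplication of neighbours, and the omission of the last element. -/
noncomputable def fc (n : ℕ) (j : Fin (n + 1)) : T (n + 1) G M →ₗ[ℚ] T n G M :=
  lsum ℚ fun x => lsingle (Fin.contractNth j (· * ·) x)

/-- The omission of the first element. -/
noncomputable def f0 (n : ℕ) : T (n + 1) G M →ₗ[ℚ] T n G M :=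
  lsum ℚ fun x => lsingle (Fin.tail x)

theorem fc_single (n : ℕ) (j : Fin (n + 1)) (x : Fin (n + 1) → G) (m : M) :
    fc n j (single x m) = single (Fin.contractNth j (· * ·) x) m := by
  unfold fc
  rw [lsum_single]
  rfl

omit [Group G] in
theorem f0_single (n : ℕ) (x : Fin (n + 1) → G) (m : M) :
    f0 n (single x m) = single (Fin.tail x) m := by
  unfold f0
  rw [lsum_single]
  rfl

theorem dd_eq (n : ℕ) (z : T (n + 1) G ℚ) :
    dd (tQ G) n z = f0 n z + ∑ j : Fin (n + 1), ((-1 : ℚ) ^ ((j : ℕ) + 1)) • fc n j z := by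
  have h : dd (tQ G) n = f0 n + ∑ j : Fin (n + 1), ((-1 : ℚ) ^ ((j : ℕ) + 1)) • fc n j := by
    apply T_ext
    intro x m
    rw [dd_single, LinearMap.add_apply, LinearMap.sum_apply, f0_single]
    congr 1
    apply Finset.sum_congr rfl
    intro j _
    rw [LinearMap.smul_apply, fc_single]
  rw [h, LinearMap.add_apply, LinearMap.sum_apply]
  rfl

theorem contract_zero {α : Type} (op : α → α → α) (n : ℕ) (a b : α) (x : Fin n → α) :
    Fin.contractNth 0 op (Fin.cons a (Fin.cons b x : Fin (n + 1) → α) : Fin (n + 2) → α) =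
      Fin.cons (op a b) x := by
  funext k
  refine Fin.cases ?_ (fun k => ?_) k
  · simp [Fin.contractNth]
  · simp [Fin.contractNth]

theorem contract_succ {α : Type} (op : α → α → α) (n : ℕ) (i : Fin (n + 1)) (a : α)
    (x : Fin (n + 1) → α) :
    Fin.contractNth i.succ op (Fin.cons a x : Fin (n + 2) → α) =
      Fin.cons a (Fin.contractNth i op x) := by
  funext k
  refine Fin.cases ?_ (fun k => ?_) k
  · simp [Fin.contractNth]
  · simp only [Fin.contractNth, Fin.val_succ, Fin.cons_succ, add_lt_add_iff_right,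
      add_left_inj]
    rw [← Fin.succ_castSucc, Fin.cons_succ]

end Faces

section Rel

variable {G S : Type} [Group G] [Ring S] [Algebra ℚ S]

theorem f0_lop (n : ℕ) (u : MonoidAlgebra S G) (z : T n G (MonoidAlgebra S G)) :
    f0 n (lop n u z) = lm n u z := by
  induction u using MonoidAlgebra.induction_linear with
  | zero => rw [lop_zero, lm_zero, map_zero]
  | add u v hu hv => rw [lop_add, lm_add, map_add, hu, hv]
  | single g s =>
    have h : (f0 n) ∘ₗ (lop n (MonoidAlgebra.single g s)) = lm n (MonoidAlgebra.single g s) := by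
      apply T_ext
      intro x a
      rw [LinearMap.comp_apply, lop_single, f0_single, lm_single, Fin.tail_cons]
    exact DFunLike.congr_fun h z

theorem fc_lop_succ (n : ℕ) (i : Fin (n + 1)) (u : MonoidAlgebra S G)
    (z : T (n + 1) G (MonoidAlgebra S G)) :
    fc (n + 1) i.succ (lop (n + 1) u z) = lop n u (fc n i z) := by
  induction u using MonoidAlgebra.induction_linear with
  | zero => rw [lop_zero, lop_zero, map_zero]
  | add u v hu hv => rw [lop_add, lop_add, map_add, hu, hv]
  | single g s =>
    have h : (fc (n + 1) i.succ) ∘ₗ (lop (n + 1) (MonoidAlgebra.single g s)) =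
        (lop n (MonoidAlgebra.single g s)) ∘ₗ (fc n i) := by
      apply T_ext
      intro x a
      rw [LinearMap.comp_apply, lop_single, fc_single, LinearMap.comp_apply, fc_single, lop_single,
        contract_succ]
    exact DFunLike.congr_fun h z

theorem fc_lop_lop (n : ℕ) (u v : MonoidAlgebra S G) (z : T n G (MonoidAlgebra S G)) :
    fc (n + 1) 0 (lop (n + 1) u (lop n v z)) = lop n (u * v) z := by
  induction u using MonoidAlgebra.induction_linear with
  | zero => rw [lop_zero, zero_mul, lop_zero, map_zero]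
  | add u u' hu hu' => rw [lop_add, add_mul, lop_add, map_add, hu, hu']
  | single g s =>
    induction v using MonoidAlgebra.induction_linear with
    | zero => rw [lop_zero, mul_zero, lop_zero, map_zero, map_zero]
    | add v v' hv hv' => rw [lop_add, mul_add, lop_add, map_add, map_add, hv, hv']
    | single h s' =>
      have h : (fc (n + 1) 0) ∘ₗ (lop (n + 1) (MonoidAlgebra.single g s)) ∘ₗ
          (lop n (MonoidAlgebra.single h s')) = lop n (MonoidAlgebra.single (g * h) (s * s')) := by
        apply T_ext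
        intro x a
        rw [LinearMap.comp_apply, LinearMap.comp_apply, lop_single, lop_single, fc_single,
          lop_single, contract_zero, ← mul_assoc, MonoidAlgebra.single_mul_single]
      rw [MonoidAlgebra.single_mul_single]
      exact DFunLike.congr_fun h z

theorem fc_lop_zero (u : MonoidAlgebra S G) (z : T 0 G (MonoidAlgebra S G)) :
    fc 0 0 (lop 0 u z) = lm 0 u z := by
  induction u using MonoidAlgebra.induction_linear with
  | zero => rw [lop_zero, lm_zero, map_zero]
  | add u v hu hv => rw [lop_add, lm_add, map_add, hu, hv]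
  | single g s =>
    have h : (fc 0 0) ∘ₗ (lop 0 (MonoidAlgebra.single g s)) = lm 0 (MonoidAlgebra.single g s) := by
      apply T_ext
      intro x a
      rw [LinearMap.comp_apply, lop_single, fc_single, lm_single]
      congr 1
      funext i
      exact i.elim0
    exact DFunLike.congr_fun h z

theorem rm_lop (n : ℕ) (u w : MonoidAlgebra S G) (z : T n G (MonoidAlgebra S G)) :
    rm (n + 1) w (lop n u z) = lop n u (rm n w z) := by
  induction u using MonoidAlgebra.induction_linear with
  | zero => rw [lop_zero, lop_zero, map_zero]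
  | add u v hu hv => rw [lop_add, lop_add, map_add, hu, hv]
  | single g s =>
    have h : (rm (n + 1) w) ∘ₗ (lop n (MonoidAlgebra.single g s)) =
        (lop n (MonoidAlgebra.single g s)) ∘ₗ (rm n w) := by
      apply T_ext
      intro x a
      rw [LinearMap.comp_apply, lop_single, rm_single, LinearMap.comp_apply, rm_single, lop_single,
        mul_assoc]
    exact DFunLike.congr_fun h z

/-- `∑ [g₁, …, gₙ] ⊗ (g₁ u₁(g₁)) ⋯ (gₙ uₙ(gₙ)) v` -/
noncomputable def pr : (n : ℕ) → (Fin n → MonoidAlgebra S G) → MonoidAlgebra S G →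
    T n G (MonoidAlgebra S G)
  | 0, _, v => single (fun i => i.elim0) v
  | n + 1, u, v => lop n (u 0) (pr n (Fin.tail u) v)

theorem rm_pr (n : ℕ) (u : Fin n → MonoidAlgebra S G) (v w : MonoidAlgebra S G) :
    rm n w (pr n u v) = pr n u (v * w) := by
  induction n with
  | zero =>
    change rm 0 w (single _ v) = single _ (v * w)
    rw [rm_single]
  | succ n ih =>
    change rm (n + 1) w (lop n (u 0) (pr n (Fin.tail u) v)) = lop n (u 0) (pr n (Fin.tail u) (v * w))
    rw [rm_lop, ih]

theorem f0_pr (n : ℕ) (u : Fin (n + 1) → MonoidAlgebra S G) (v : MonoidAlgebra S G) :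
    f0 n (pr (n + 1) u v) = lm n (u 0) (pr n (Fin.tail u) v) := f0_lop n _ _

theorem fc_pr (n : ℕ) (u : Fin (n + 1) → MonoidAlgebra S G) (v : MonoidAlgebra S G)
    (j : Fin (n + 1)) :
    fc n j (pr (n + 1) u v) = pr n (Fin.contractNth j (· * ·) u)
      (if j = Fin.last n then u (Fin.last n) * v else v) := by
  induction n with
  | zero =>
    have hj : j = 0 := Fin.fin_one_eq_zero j
    subst hj
    change fc 0 0 (lop 0 (u 0) (single _ v)) = single _ _
    rw [fc_lop_zero, lm_single]
    congr 1
  | succ n ih =>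
    obtain ⟨a, x, rfl⟩ : ∃ (a : MonoidAlgebra S G) (x : Fin (n + 1) → MonoidAlgebra S G),
        u = Fin.cons a x := ⟨u 0, Fin.tail u, (Fin.cons_self_tail u).symm⟩
    refine Fin.cases ?_ (fun i => ?_) j
    · obtain ⟨b, y, rfl⟩ : ∃ (b : MonoidAlgebra S G) (y : Fin n → MonoidAlgebra S G),
        x = Fin.cons b y := ⟨x 0, Fin.tail x, (Fin.cons_self_tail x).symm⟩
      rw [contract_zero, if_neg (by rw [Fin.ext_iff, Fin.val_last, Fin.val_zero]; omega)]
      change fc (n + 1) 0 (lop (n + 1) a (lop n b (pr n y v))) = lop n (a * b) (pr n y v)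
      exact fc_lop_lop n a b _
    · rw [contract_succ]
      change fc (n + 1) i.succ (lop (n + 1) a (pr (n + 1) x v)) =
        lop n a (pr n (Fin.contractNth i (· * ·) x) _)
      rw [fc_lop_succ, ih]
      have e : (i.succ = Fin.last (n + 1)) ↔ (i = Fin.last n) := by
        rw [Fin.ext_iff, Fin.ext_iff, Fin.val_last, Fin.val_last, Fin.val_succ]
        omega
      have e2 : (Fin.cons a x : Fin (n + 2) → MonoidAlgebra S G) (Fin.last (n + 1)) =
          x (Fin.last n) := by
        rw [← Fin.succ_last, Fin.cons_succ]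
      rw [e2]
      congr 2
      by_cases h : i = Fin.last n
      · rw [if_pos h, if_pos (e.mpr h)]
      · rw [if_neg h, if_neg (fun h' => h (e.mp h'))]

end Rel

section Trace

variable {G S : Type} [Group G] [Ring S] [Algebra ℚ S] (τ : S →ₗ[ℚ] ℚ)

/-- The trace of the coefficient at `1`. -/
noncomputable def tr1 : MonoidAlgebra S G →ₗ[ℚ] ℚ :=
  τ ∘ₗ (Finsupp.lapply (1 : G)) ∘ₗ (MonoidAlgebra.coeffLinearEquiv ℚ).toLinearMap

theorem tr1_apply (a : MonoidAlgebra S G) : tr1 τ a = τ (a.coeff 1) := rfl

theorem tr1_single (g : G) (s : S) [Decidable (g = 1)] :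
    tr1 τ (MonoidAlgebra.single g s) = if g = 1 then τ s else 0 := by
  rw [tr1_apply, MonoidAlgebra.coeff_single]
  by_cases h : g = 1
  · subst h
    rw [Finsupp.single_eq_same, if_pos rfl]
  · rw [Finsupp.single_eq_of_ne (fun h' => h h'.symm), if_neg h, map_zero]

theorem tr1_comm (hτ : ∀ a b : S, τ (a * b) = τ (b * a)) (a b : MonoidAlgebra S G) :
    tr1 τ (a * b) = tr1 τ (b * a) := by
  classical
  induction a using MonoidAlgebra.induction_linear with
  | zero => rw [zero_mul, mul_zero]
  | add a a' ha ha' => rw [add_mul, mul_add, map_add, map_add, ha, ha']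
  | single g s =>
    induction b using MonoidAlgebra.induction_linear with
    | zero => rw [zero_mul, mul_zero]
    | add b b' hb hb' => rw [add_mul, mul_add, map_add, map_add, hb, hb']
    | single h t =>
      rw [MonoidAlgebra.single_mul_single, MonoidAlgebra.single_mul_single, tr1_single, tr1_single,
        hτ]
      congr 1
      exact propext ⟨fun h' => by rw [mul_eq_one_iff_eq_inv] at *; rw [h', inv_inv],
        fun h' => by rw [mul_eq_one_iff_eq_inv] at *; rw [h', inv_inv]⟩

variable {Γ : Type} [Group Γ] (θ : Γ →* MonoidAlgebra S G)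

/-- The product of the elements of a tuple. -/
def pd {Γ : Type} [Group Γ] {n : ℕ} (x : Fin n → Γ) : Γ := Fin.partialProd x (Fin.last n)

theorem pd_cons {Γ : Type} [Group Γ] {n : ℕ} (g : Γ) (x : Fin n → Γ) :
    pd (Fin.cons g x : Fin (n + 1) → Γ) = g * pd x := by
  unfold pd
  rw [← Fin.succ_last, Fin.partialProd_succ']
  rfl

theorem pd_contract {Γ : Type} [Group Γ] {n : ℕ} (j : Fin (n + 1)) (x : Fin (n + 1) → Γ) :
    pd x = pd (Fin.contractNth j (· * ·) x) * (if j = Fin.last n then x (Fin.last n) else 1) := by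
  unfold pd
  rw [Fin.partialProd_contractNth, Function.comp_apply]
  by_cases h : j = Fin.last n
  · subst h
    rw [if_pos rfl, Fin.succ_last, Fin.succAbove_last, ← Fin.partialProd_succ, Fin.succ_last]
  · rw [if_neg h, mul_one]
    have h1 : j.succ ≤ (Fin.last n).castSucc := by
      rw [Fin.le_def, Fin.val_succ, Fin.val_castSucc, Fin.val_last]
      have h2 : (j : ℕ) ≠ n := fun h' => h (Fin.ext h')
      have h3 := j.2
      omega
    rw [Fin.succAbove_of_le_castSucc _ _ h1, Fin.succ_last]

/-- The chain map. -/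
noncomputable def den (n : ℕ) : T n Γ ℚ →ₗ[ℚ] T n G ℚ :=
  lsum ℚ fun x => LinearMap.toSpanSingleton ℚ _
    (mp n id (tr1 τ) (pr n (fun i => θ (x i)) (θ (pd x)⁻¹)))

theorem den_single (n : ℕ) (x : Fin n → Γ) (m : ℚ) :
    den τ θ n (single x m) = m • mp n id (tr1 τ) (pr n (fun i => θ (x i)) (θ (pd x)⁻¹)) := by
  unfold den
  rw [lsum_single]
  rfl

omit [Group G] in
theorem f0_mp {M N : Type} [AddCommGroup M] [Module ℚ M] [AddCommGroup N] [Module ℚ N] (n : ℕ)
    (φ : M →ₗ[ℚ] N) (z : T (n + 1) G M) : f0 n (mp (n + 1) id φ z) = mp n id φ (f0 n z) := by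
  have h : (f0 n) ∘ₗ (mp (n + 1) (id : G → G) φ) = (mp n id φ) ∘ₗ (f0 n) := by
    apply T_ext
    intro x m
    rw [LinearMap.comp_apply, mp_single, f0_single, LinearMap.comp_apply, f0_single, mp_single]
    rfl
  exact DFunLike.congr_fun h z

theorem fc_mp {M N : Type} [AddCommGroup M] [Module ℚ M] [AddCommGroup N] [Module ℚ N] (n : ℕ)
    (j : Fin (n + 1)) (φ : M →ₗ[ℚ] N) (z : T (n + 1) G M) :
    fc n j (mp (n + 1) id φ z) = mp n id φ (fc n j z) := by
  have h : (fc n j) ∘ₗ (mp (n + 1) (id : G → G) φ) = (mp n id φ) ∘ₗ (fc n j) := by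
    apply T_ext
    intro x m
    rw [LinearMap.comp_apply, mp_single, fc_single, LinearMap.comp_apply, fc_single, mp_single]
    rfl
  exact DFunLike.congr_fun h z

theorem f0_den (hτ : ∀ a b : S, τ (a * b) = τ (b * a)) (n : ℕ) (z : T (n + 1) Γ ℚ) :
    f0 n (den τ θ (n + 1) z) = den τ θ n (f0 n z) := by
  have h : (f0 n) ∘ₗ (den τ θ (n + 1)) = (den τ θ n) ∘ₗ (f0 n) := by
    apply T_ext
    intro x m
    obtain ⟨g, y, rfl⟩ : ∃ (g : Γ) (y : Fin n → Γ), x = Fin.cons g y :=
      ⟨x 0, Fin.tail x, (Fin.cons_self_tail x).symm⟩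
    rw [LinearMap.comp_apply, LinearMap.comp_apply, den_single, map_smul, f0_single, den_single,
      f0_mp, f0_pr, Fin.tail_cons]
    congr 1
    have e1 : Fin.tail (fun i => θ ((Fin.cons g y : Fin (n + 1) → Γ) i)) = fun i => θ (y i) := rfl
    have e2 : mp n id (tr1 τ) ∘ₗ lm n (θ g) =
        (mp n id (tr1 τ) ∘ₗ rm n (θ g) : T n G (MonoidAlgebra S G) →ₗ[ℚ] T n G ℚ) := by
      apply T_ext
      intro x a
      rw [LinearMap.comp_apply, LinearMap.comp_apply, lm_single, rm_single, mp_single, mp_single,
        tr1_comm τ hτ]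
    rw [e1]
    refine (DFunLike.congr_fun e2 _).trans ?_
    rw [LinearMap.comp_apply, rm_pr, ← map_mul, pd_cons]
    congr 3
    group
  exact DFunLike.congr_fun h z

theorem fc_den (n : ℕ) (j : Fin (n + 1)) (z : T (n + 1) Γ ℚ) :
    fc n j (den τ θ (n + 1) z) = den τ θ n (fc n j z) := by
  have h : (fc n j) ∘ₗ (den τ θ (n + 1)) = (den τ θ n) ∘ₗ (fc n j) := by
    apply T_ext
    intro x m
    rw [LinearMap.comp_apply, LinearMap.comp_apply, den_single, map_smul, fc_single, den_single,
      fc_mp, fc_pr]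
    congr 3
    · funext k
      exact (congrFun (Fin.comp_contractNth (· * ·) (· * ·) (f := θ)
        (fun a b => map_mul θ a b) j x) k).symm
    · have e := pd_contract j x
      by_cases h : j = Fin.last n
      · rw [if_pos h] at e ⊢
        rw [← map_mul, e]
        congr 1
        group
      · rw [if_neg h, mul_one] at e
        rw [if_neg h, e]
  exact DFunLike.congr_fun h z

theorem dd_den (hτ : ∀ a b : S, τ (a * b) = τ (b * a)) (n : ℕ) (z : T (n + 1) Γ ℚ) :
    dd (tQ G) n (den τ θ (n + 1) z) = den τ θ n (dd (tQ Γ) n z) := by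
  rw [dd_eq, dd_eq, map_add, f0_den τ θ hτ, map_sum]
  congr 1
  apply Finset.sum_congr rfl
  intro j _
  rw [map_smul, fc_den]

end Trace

end Pool.Agent.N316.NV
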