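import Pool.Agent.N316.NV.Cor

/-!
The elementary group `E_n(R)`, Whitehead's lemma and the embedding of a group `G` in
`GL_n(ℤ[G])`.
-/

namespace Pool.Agent.N316.NV

open Finsupp Pool.Agent.Y483

section Elem

variable {n : ℕ} {R : Type} [Ring R]

/-- The group `GL_n(R)` of the invertible matrices over the ring `R`. -/
abbrev GLn (n : ℕ) (R : Type) [Ring R] : Type := (Matrix (Fin n) (Fin n) R)ˣ

/-- The elementary group `E_n(R)`: the subgroup of `GL_n(R)` generated by the matrices which differ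
from the unit matrix in one entry outside the diagonal. -/
def elem (n : ℕ) (R : Type) [Ring R] : Subgroup (GLn n R) :=
  Subgroup.closure {u | ∃ (i j : Fin n) (a : R), i ≠ j ∧ u.val = 1 + Matrix.single i j a}

/-- An elementary matrix. -/
def tvu (i j : Fin n) (h : i ≠ j) (a : R) : (Matrix (Fin n) (Fin n) R)ˣ where
  val := 1 + Matrix.single i j a
  inv := 1 - Matrix.single i j a
  val_inv := by
    rw [add_mul, mul_sub, mul_sub, one_mul, one_mul, mul_one,
      Matrix.single_mul_single_of_ne _ _ _ _ h.symm]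
    abel
  inv_val := by
    rw [sub_mul, mul_add, mul_add, one_mul, one_mul, mul_one,
      Matrix.single_mul_single_of_ne _ _ _ _ h.symm]
    abel

theorem tvu_mem (i j : Fin n) (h : i ≠ j) (a : R) : tvu i j h a ∈ elem n R :=
  Subgroup.subset_closure ⟨i, j, a, h, rfl⟩

/-- `W(a)` -/
def wu (i j : Fin n) (h : i ≠ j) (a : Rˣ) : (Matrix (Fin n) (Fin n) R)ˣ :=
  tvu i j h (a : R) * tvu j i h.symm (-(a⁻¹ : Rˣ) : R) * tvu i j h (a : R)

theorem wu_mem (i j : Fin n) (h : i ≠ j) (a : Rˣ) : wu i j h a ∈ elem n R :=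
  mul_mem (mul_mem (tvu_mem _ _ _ _) (tvu_mem _ _ _ _)) (tvu_mem _ _ _ _)

theorem wu_val (i j : Fin n) (h : i ≠ j) (a : Rˣ) :
    (wu i j h a : Matrix (Fin n) (Fin n) R) = 1 + Matrix.single i j (a : R) -
      Matrix.single j i ((a⁻¹ : Rˣ) : R) - Matrix.single i i 1 - Matrix.single j j 1 := by
  have e1 : (Matrix.single j i (-((a⁻¹ : Rˣ) : R)) : Matrix (Fin n) (Fin n) R) =
      - Matrix.single j i ((a⁻¹ : Rˣ) : R) := by
    ext k l
    by_cases hk : j = k <;> by_cases hl : i = l <;> simp [Matrix.single_apply, hk, hl]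
  change (1 + Matrix.single i j (a : R)) * (1 + Matrix.single j i (-((a⁻¹ : Rˣ) : R))) *
    (1 + Matrix.single i j (a : R)) = _
  rw [e1]
  simp only [mul_add, add_mul, mul_neg, neg_mul, one_mul, mul_one, Matrix.single_mul_single_same,
    Matrix.single_mul_single_of_ne _ _ _ _ h, Matrix.single_mul_single_of_ne _ _ _ _ h.symm,
    Units.mul_inv, Units.inv_mul]
  abel

/-- The diagonal matrix with the entries `a`, `a⁻¹` in the places `i`, `j`. -/
def hu (i j : Fin n) (h : i ≠ j) (a : Rˣ) : (Matrix (Fin n) (Fin n) R)ˣ :=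
  wu i j h a * wu i j h (-1)

theorem hu_mem (i j : Fin n) (h : i ≠ j) (a : Rˣ) : hu i j h a ∈ elem n R :=
  mul_mem (wu_mem _ _ _ _) (wu_mem _ _ _ _)

theorem hu_val (i j : Fin n) (h : i ≠ j) (a : Rˣ) :
    (hu i j h a : Matrix (Fin n) (Fin n) R) = 1 - Matrix.single i i 1 - Matrix.single j j 1 +
      Matrix.single i i (a : R) + Matrix.single j j ((a⁻¹ : Rˣ) : R) := by
  have e1 : ∀ (i j : Fin n), (Matrix.single i j (-1 : R) : Matrix (Fin n) (Fin n) R) =
      - Matrix.single i j 1 := by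
    intro i j
    ext k l
    by_cases hk : i = k <;> by_cases hl : j = l <;> simp [Matrix.single_apply, hk, hl]
  unfold hu
  rw [Units.val_mul, wu_val, wu_val, inv_neg, inv_one, Units.val_neg, Units.val_one, e1, e1]
  simp only [mul_add, add_mul, mul_sub, sub_mul, mul_neg, neg_mul, one_mul, mul_one,
    Matrix.single_mul_single_same,
    Matrix.single_mul_single_of_ne _ _ _ _ h, Matrix.single_mul_single_of_ne _ _ _ _ h.symm]
  abel

/-- The diagonal matrix with the entry `a` in the place `i` and `1` in the other places. -/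
def dg (i : Fin n) : Rˣ →* (Matrix (Fin n) (Fin n) R)ˣ :=
  Units.map
    { toFun := fun a => 1 - Matrix.single i i 1 + Matrix.single i i a
      map_one' := by abel
      map_mul' := fun a b => by
        simp only [mul_add, add_mul, mul_sub, sub_mul, one_mul, mul_one,
          Matrix.single_mul_single_same]
        abel }

theorem dg_val (i : Fin n) (a : Rˣ) : (dg i a : Matrix (Fin n) (Fin n) R) =
    1 - Matrix.single i i 1 + Matrix.single i i (a : R) := rfl

/-- **Whitehead's lemma.** -/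
theorem dg_comm (i j : Fin n) (h : i ≠ j) (a b : Rˣ) :
    dg i (a * b * a⁻¹ * b⁻¹) = hu i j h a * hu i j h b * hu i j h (b * a)⁻¹ := by
  apply Units.ext
  rw [Units.val_mul, Units.val_mul, hu_val, hu_val, hu_val, dg_val]
  simp only [mul_add, add_mul, mul_sub, sub_mul, one_mul, mul_one, inv_inv,
    Matrix.single_mul_single_same, Units.val_mul, mul_inv_rev,
    Matrix.single_mul_single_of_ne _ _ _ _ h, Matrix.single_mul_single_of_ne _ _ _ _ h.symm]
  have e : ((a⁻¹ : Rˣ) : R) * ((b⁻¹ : Rˣ) : R) * ((b : R) * (a : R)) = 1 := by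
    rw [mul_assoc, ← mul_assoc ((b⁻¹ : Rˣ) : R), Units.inv_mul, one_mul, Units.inv_mul]
  rw [e, mul_assoc, mul_assoc]
  abel

theorem dg_comm_mem (i j : Fin n) (h : i ≠ j) (a b : Rˣ) :
    dg i (a * b * a⁻¹ * b⁻¹) ∈ elem n R := by
  rw [dg_comm i j h]
  exact mul_mem (mul_mem (hu_mem _ _ _ _) (hu_mem _ _ _ _)) (hu_mem _ _ _ _)

end Elem

end Pool.Agent.N316.NV
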