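import Pool.Agent.N316.NV.Elm

/-!
The embedding of a group `G` in `GL_n(ℤ[G])` is injective on rational homology.
-/

namespace Pool.Agent.N316.NV

open Finsupp Pool.Agent.Y483

section Mat

variable {n : ℕ} {G : Type} [Group G]

/-- `x ↦ x E_{ij}` -/
noncomputable def io (i j : Fin n) :
    MonoidAlgebra ℤ G →+ MonoidAlgebra (Matrix (Fin n) (Fin n) ℚ) G :=
  (Finsupp.liftAddHom (fun g : G => (MonoidAlgebra.singleAddHom g).comp
    ((Matrix.singleAddMonoidHom i j).comp (Int.castAddHom ℚ)))).comp
    (MonoidAlgebra.coeffAddEquiv : MonoidAlgebra ℤ G ≃+ _).toAddMonoidHom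

omit [Group G] in
theorem io_single (i j : Fin n) (g : G) (a : ℤ) :
    io i j (MonoidAlgebra.single g a) = MonoidAlgebra.single g (Matrix.single i j (a : ℚ)) := by
  unfold io
  rw [AddMonoidHom.comp_apply]
  change Finsupp.liftAddHom _ (Finsupp.single g a) = _
  rw [Finsupp.liftAddHom_apply_single]
  rfl

theorem io_mul_same (i j l : Fin n) (x y : MonoidAlgebra ℤ G) :
    io i j x * io j l y = io i l (x * y) := by
  induction x using MonoidAlgebra.induction_linear with
  | zero => rw [map_zero, zero_mul, zero_mul, map_zero]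
  | add x x' hx hx' => rw [map_add, add_mul, add_mul, map_add, hx, hx']
  | single g a =>
    induction y using MonoidAlgebra.induction_linear with
    | zero => rw [map_zero, mul_zero, mul_zero, map_zero]
    | add y y' hy hy' => rw [map_add, mul_add, mul_add, map_add, hy, hy']
    | single h b =>
      rw [io_single, io_single, MonoidAlgebra.single_mul_single, MonoidAlgebra.single_mul_single,
        io_single, Matrix.single_mul_single_same, Int.cast_mul]

theorem io_mul_ne (i j k l : Fin n) (h : j ≠ k) (x y : MonoidAlgebra ℤ G) :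
    io i j x * io k l y = 0 := by
  induction x using MonoidAlgebra.induction_linear with
  | zero => rw [map_zero, zero_mul]
  | add x x' hx hx' => rw [map_add, add_mul, hx, hx', add_zero]
  | single g a =>
    induction y using MonoidAlgebra.induction_linear with
    | zero => rw [map_zero, mul_zero]
    | add y y' hy hy' => rw [map_add, mul_add, hy, hy', add_zero]
    | single g' b =>
      rw [io_single, io_single, MonoidAlgebra.single_mul_single,
        Matrix.single_mul_single_of_ne _ _ _ _ h, MonoidAlgebra.single_zero]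

/-- The homomorphism of multiplicative monoids `M_n(ℤ[G]) → M_n(ℚ)[G]`. -/
noncomputable def thM : Matrix (Fin n) (Fin n) (MonoidAlgebra ℤ G) →+
    MonoidAlgebra (Matrix (Fin n) (Fin n) ℚ) G where
  toFun A := ∑ i, ∑ j, io i j (A i j)
  map_zero' := by simp
  map_add' A B := by
    simp only [Matrix.add_apply, map_add, Finset.sum_add_distrib]

theorem thM_apply (A : Matrix (Fin n) (Fin n) (MonoidAlgebra ℤ G)) :
    thM A = ∑ i, ∑ j, io i j (A i j) := rfl

theorem thM_single (i j : Fin n) (x : MonoidAlgebra ℤ G) :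
    thM (Matrix.single i j x) = io i j x := by
  rw [thM_apply, Finset.sum_eq_single i, Finset.sum_eq_single j, Matrix.single_apply_same]
  · intro k _ hk
    rw [Matrix.single_apply_of_ne _ _ _ _ _ (fun h => hk h.2.symm), map_zero]
  · intro h
    exact absurd (Finset.mem_univ _) h
  · intro k _ hk
    apply Finset.sum_eq_zero
    intro l _
    rw [Matrix.single_apply_of_ne _ _ _ _ _ (fun h => hk h.1.symm), map_zero]
  · intro h
    exact absurd (Finset.mem_univ _) h

theorem thM_mul (A B : Matrix (Fin n) (Fin n) (MonoidAlgebra ℤ G)) :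
    thM (A * B) = thM A * thM B := by
  rw [thM_apply, thM_apply, thM_apply, Finset.sum_mul]
  apply Finset.sum_congr rfl
  intro i _
  have h1 : (∑ j, io i j (A i j)) * (∑ k, ∑ l, io k l (B k l)) =
      ∑ j, ∑ l, io i l (A i j * B j l) := by
    rw [Finset.sum_mul]
    apply Finset.sum_congr rfl
    intro j _
    rw [Finset.mul_sum, Finset.sum_eq_single j]
    · rw [Finset.mul_sum]
      apply Finset.sum_congr rfl
      intro l _
      exact io_mul_same _ _ _ _ _
    · intro k _ hk
      rw [Finset.mul_sum]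
      apply Finset.sum_eq_zero
      intro l _
      exact io_mul_ne _ _ _ _ (fun h => hk h.symm) _ _
    · intro h
      exact absurd (Finset.mem_univ _) h
  rw [h1, Finset.sum_comm]
  apply Finset.sum_congr rfl
  intro l _
  rw [Matrix.mul_apply, map_sum]

theorem thM_one : thM (1 : Matrix (Fin n) (Fin n) (MonoidAlgebra ℤ G)) = 1 := by
  have h1 : (1 : Matrix (Fin n) (Fin n) (MonoidAlgebra ℤ G)) =
      ∑ i, Matrix.single i i (1 : MonoidAlgebra ℤ G) := Matrix.sum_single_one.symm
  rw [h1, map_sum]
  have h2 : ∀ i : Fin n, thM (Matrix.single i i (1 : MonoidAlgebra ℤ G)) =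
      MonoidAlgebra.singleAddHom 1 (Matrix.single i i (1 : ℚ)) := by
    intro i
    rw [thM_single, MonoidAlgebra.one_def, io_single, Int.cast_one]
    rfl
  rw [Finset.sum_congr rfl (fun i _ => h2 i), ← map_sum, Matrix.sum_single_one]
  rfl

/-- The homomorphism to the multiplicative monoid of `M_n(ℚ)[G]`. -/
noncomputable def thU (Γ : Subgroup (Matrix (Fin n) (Fin n) (MonoidAlgebra ℤ G))ˣ) :
    Γ →* MonoidAlgebra (Matrix (Fin n) (Fin n) ℚ) G where
  toFun u := thM ((u : (Matrix (Fin n) (Fin n) (MonoidAlgebra ℤ G))ˣ) :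
    Matrix (Fin n) (Fin n) (MonoidAlgebra ℤ G))
  map_one' := thM_one
  map_mul' _ _ := thM_mul _ _

/-- A group element as a unit of the group ring. -/
noncomputable def ofU : G →* (MonoidAlgebra ℤ G)ˣ :=
  (Units.map (MonoidAlgebra.of ℤ G)).comp (toUnits (G := G)).toMonoidHom

theorem ofU_val (g : G) : ((ofU g : (MonoidAlgebra ℤ G)ˣ) : MonoidAlgebra ℤ G) =
    MonoidAlgebra.single g 1 := rfl

theorem thM_dg (i : Fin n) (g : G) :
    thM ((dg i (ofU g) : (Matrix (Fin n) (Fin n) (MonoidAlgebra ℤ G))ˣ) :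
      Matrix (Fin n) (Fin n) (MonoidAlgebra ℤ G)) =
      crn (Matrix.single i i (1 : ℚ)) (1 - Matrix.single i i (1 : ℚ)) g := by
  have h1 : io i i (1 : MonoidAlgebra ℤ G) = MonoidAlgebra.single 1 (Matrix.single i i (1 : ℚ)) := by
    rw [MonoidAlgebra.one_def, io_single, Int.cast_one]
  rw [dg_val, map_add, map_sub, thM_one, thM_single, thM_single, ofU_val, io_single, h1,
    Int.cast_one, MonoidAlgebra.one_def]
  unfold crn
  rw [MonoidAlgebra.single_sub]
  abel

/-- **The embedding in a group of matrices is injective on rational homology.** -/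
theorem emb_inj (i : Fin n) (Γ : Subgroup (Matrix (Fin n) (Fin n) (MonoidAlgebra ℤ G))ˣ)
    {P : Type} [Group P] (k : P →* G) (f : P →* Γ)
    (hf : ∀ p, (f p : (Matrix (Fin n) (Fin n) (MonoidAlgebra ℤ G))ˣ) = dg i (ofU (k p)))
    (j : ℕ) (hk : ∀ x : HQ j P, hqMap k j x = 0 → x = 0) (x : HQ j P) (hx : hqMap f j x = 0) :
    x = 0 := by
  apply hk
  let F : G →* (⊤ : Subgroup (Matrix (Fin n) (Fin n) (MonoidAlgebra ℤ G))ˣ) :=
    (Subgroup.topEquiv.symm.toMonoidHom).comp ((dg i).comp ofU)
  have h1 : F.comp k = (Subgroup.inclusion (le_top : Γ ≤ ⊤)).comp f := by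
    ext1 p
    apply Subtype.ext
    exact (hf p).symm
  have h2 : hqMap F j (hqMap k j x) = 0 := by
    rw [← hqMap_comp, h1, hqMap_comp, hx, map_zero]
  have e1 : (Matrix.single i i (1 : ℚ) : Matrix (Fin n) (Fin n) ℚ) * Matrix.single i i 1 =
      Matrix.single i i 1 := by rw [Matrix.single_mul_single_same, one_mul]
  refine inj_crn (Matrix.traceLinearMap (Fin n) ℚ ℚ) (thU ⊤)
    (e := Matrix.single i i (1 : ℚ)) (e' := 1 - Matrix.single i i (1 : ℚ)) e1 ?_ ?_ ?_ ?_ ?_ ?_
    F ?_ j _ h2
  · rw [sub_mul, mul_sub, mul_sub, one_mul, one_mul, mul_one, e1]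
    abel
  · rw [mul_sub, mul_one, e1, sub_self]
  · rw [sub_mul, one_mul, e1, sub_self]
  · intro a b
    exact Matrix.trace_mul_comm a b
  · change 0 < Matrix.trace (Matrix.single i i (1 : ℚ))
    rw [Matrix.trace_single_eq_same]
    exact one_pos
  · change 0 ≤ Matrix.trace (1 - Matrix.single i i (1 : ℚ))
    rw [Matrix.trace_sub, Matrix.trace_single_eq_same, Matrix.trace_one, Fintype.card_fin]
    have := i.2
    have h3 : (1 : ℚ) ≤ n := by
      exact_mod_cast (show 1 ≤ n by omega)
    linarith
  · intro g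
    exact thM_dg i g

end Mat

end Pool.Agent.N316.NV
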