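import Pool.Agent.N316.NV.Shp
import Pool.Agent.Y483.Shapiro

/-!
The rational homology of a free group vanishes in the degrees above one.
-/

namespace Pool.Agent.N316.NV

open Finsupp Pool.Agent.Y483 Pool.Agent.Y110.KW

section Acyclic

variable {G : Type} [Group G] {A : Type}

/-- The cone operator with the apex depending on the coefficient. -/
noncomputable def hop (π : A → G) (n : ℕ) : T n G (A →₀ ℚ) →ₗ[ℚ] T (n + 1) G (A →₀ ℚ) :=
  comb n (fun a => (mp (n + 1) id (lsingle a)) ∘ₗ (cone n (π a)))

omit [Group G] in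
theorem hop_single (π : A → G) (n : ℕ) (x : Fin n → G) (a : A) (m : ℚ) :
    hop π n (single x (single a m)) =
      single (Fin.cons (π a) x : Fin (n + 1) → G) (single a m) := by
  unfold hop
  rw [comb_single, LinearMap.comp_apply, cone_single, mp_single]
  rfl

omit [Group G] in
theorem bd_hop (π : A → G) (n : ℕ) (z : T (n + 1) G (A →₀ ℚ)) :
    bd (n + 1) (hop π (n + 1) z) = z - hop π n (bd n z) := by
  have h : (bd (n + 1)) ∘ₗ (hop π (n + 1)) =
      (LinearMap.id : T (n + 1) G (A →₀ ℚ) →ₗ[ℚ] T (n + 1) G (A →₀ ℚ)) - (hop π n) ∘ₗ (bd n) := by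
    apply TI_ext
    intro x a m
    have h1 := bd_cone_succ (M := A →₀ ℚ) n (π a) (single x (single a m))
    rw [cone_single] at h1
    rw [LinearMap.comp_apply, hop_single, h1, LinearMap.sub_apply, LinearMap.id_apply,
      LinearMap.comp_apply]
    congr 1
    rw [bd_single, map_sum, map_sum]
    apply Finset.sum_congr rfl
    intro j _
    rw [map_smul, map_smul, cone_single, hop_single]
  exact DFunLike.congr_fun h z

/-- Induced modules are acyclic. -/
theorem free_acyc (σ : G →* Equiv.Perm A) (π : A → G) (hπ : ∀ g a, π (σ g a) = g * π a) (n : ℕ)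
    (z : T (n + 1) G (A →₀ ℚ)) (hz : dd (permRep σ) n z = 0) :
    z ∈ LinearMap.range (dd (permRep σ) (n + 1)) := by
  have hinv : ∀ (g : G) (w : T (n + 1) G (A →₀ ℚ)),
      ((pp (permRep σ) (n + 1)) ∘ₗ (hop π (n + 1))) (tr (permRep σ) (n + 1) g w) =
        ((pp (permRep σ) (n + 1)) ∘ₗ (hop π (n + 1))) w := by
    intro g w
    have h1 : (hop π (n + 1)) ∘ₗ (tr (permRep σ) (n + 1) g) =
        (tr (permRep σ) (n + 2) g) ∘ₗ (hop π (n + 1)) := by
      apply TI_ext
      intro x a m
      rw [LinearMap.comp_apply, LinearMap.comp_apply, tr, mp_single, permRep_single, hop_single,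
        hop_single, tr, mp_single, permRep_single]
      congr 1
      funext i
      refine Fin.cases ?_ (fun i => ?_) i
      · rw [Fin.cons_zero, Function.comp_apply, Fin.cons_zero, hπ]
      · rw [Fin.cons_succ, Function.comp_apply, Function.comp_apply, Fin.cons_succ]
    have h2 := DFunLike.congr_fun h1 w
    rw [LinearMap.comp_apply, LinearMap.comp_apply] at h2
    rw [LinearMap.comp_apply, LinearMap.comp_apply, h2, pp_tr]
  refine ⟨pp (permRep σ) (n + 2) (hop π (n + 2) (sg (n + 1) z)), ?_⟩
  rw [← pp_bd, bd_hop, map_sub, pp_sg]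
  have h3 := factor (permRep σ) n ((pp (permRep σ) (n + 1)) ∘ₗ (hop π (n + 1))) hinv
    (bd (n + 1) (sg (n + 1) z))
  rw [LinearMap.comp_apply] at h3
  rw [h3, pp_bd, pp_sg, hz, map_zero, map_zero, sub_zero]

end Acyclic

section Free

variable {X : Type}

/-- The action on the vertices of the tree. -/
def sV (X : Type) : FreeGroup X →* Equiv.Perm (FreeGroup X) :=
  MulAction.toPermHom (FreeGroup X) (FreeGroup X)

/-- The action on the edges of the tree. -/
def sE (X : Type) : FreeGroup X →* Equiv.Perm (FreeGroup X × X) where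
  toFun g := Equiv.prodCongr (Equiv.mulLeft g) (Equiv.refl X)
  map_one' := by ext p <;> simp
  map_mul' g h := by ext p <;> simp [mul_assoc]

theorem sV_apply (g v : FreeGroup X) : sV X g v = g * v := rfl

theorem sE_apply (g : FreeGroup X) (p : FreeGroup X × X) : sE X g p = (g * p.1, p.2) := rfl

/-- The boundary of an edge. -/
noncomputable def de (X : Type) : ((FreeGroup X × X) →₀ ℚ) →ₗ[ℚ] (FreeGroup X →₀ ℚ) :=
  Finsupp.lmapDomain ℚ ℚ (fun p : FreeGroup X × X => p.1 * FreeGroup.of p.2) -
    Finsupp.lmapDomain ℚ ℚ (fun p : FreeGroup X × X => p.1)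

theorem de_single (p : FreeGroup X × X) (m : ℚ) :
    de X (single p m) = single (p.1 * FreeGroup.of p.2) m - single p.1 m := by
  unfold de
  rw [LinearMap.sub_apply, lmapDomain_apply, lmapDomain_apply, mapDomain_single, mapDomain_single]

theorem de_equiv (g : FreeGroup X) (y : (FreeGroup X × X) →₀ ℚ) :
    de X (permRep (sE X) g y) = permRep (sV X) g (de X y) := by
  have h : (de X) ∘ₗ (permRep (sE X) g) = (permRep (sV X) g) ∘ₗ (de X) := by
    apply Finsupp.lhom_ext
    intro p m
    rw [LinearMap.comp_apply, LinearMap.comp_apply, permRep_single, de_single, de_single, map_sub,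
      permRep_single, permRep_single, sV_apply, sV_apply, sE_apply, mul_assoc]
  exact DFunLike.congr_fun h y

/-- The tree has no closed edge paths. -/
theorem free_split (c : FreeGroup X × X → ℚ) : ∃ a : FreeGroup X → ℚ, ∀ p : FreeGroup X × X,
    c p = a (p.1 * FreeGroup.of p.2) - a p.1 := by
  let T : X → Equiv.Perm (FreeGroup X × ℚ) := fun x =>
    { toFun := fun p => (p.1 * (FreeGroup.of x)⁻¹, p.2 - c (p.1 * (FreeGroup.of x)⁻¹, x))
      invFun := fun p => (p.1 * FreeGroup.of x, p.2 + c (p.1, x))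
      left_inv := fun p => by
        apply Prod.ext
        · simp
        · simp
      right_inv := fun p => by
        apply Prod.ext
        · simp
        · simp }
  let h : FreeGroup X →* Equiv.Perm (FreeGroup X × ℚ) := FreeGroup.lift T
  have h1 : ∀ x, h (FreeGroup.of x) = T x := fun x => FreeGroup.lift_apply_of
  have hfst : ∀ (g : FreeGroup X) (p : FreeGroup X × ℚ), (h g p).1 = p.1 * g⁻¹ := by
    intro g
    induction g using FreeGroup.induction_on with
    | C1 => intro p; rw [map_one, Equiv.Perm.one_apply, inv_one, mul_one]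
    | of x => intro p; rw [h1]; rfl
    | inv_of x ih =>
      intro p
      have h3 := ih (h (FreeGroup.of x)⁻¹ p)
      rw [← Equiv.Perm.mul_apply, ← map_mul, mul_inv_cancel, map_one,
        Equiv.Perm.one_apply] at h3
      rw [h3]
      group
    | mul a b ha hb =>
      intro p
      rw [map_mul, Equiv.Perm.mul_apply, ha, hb, mul_inv_rev, mul_assoc]
  let m : FreeGroup X → ℚ := fun x => (h x⁻¹ (1, 0)).2
  have hm : ∀ x : FreeGroup X, h x⁻¹ (1, 0) = (x, m x) := fun x => by
    apply Prod.ext
    · rw [hfst]; simp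
    · rfl
  refine ⟨m, ?_⟩
  rintro ⟨g, x⟩
  have h3 := hm g
  have h4 := hm (g * FreeGroup.of x)
  have h5 : h (FreeGroup.of x) (g * FreeGroup.of x, m (g * FreeGroup.of x)) = (g, m g) := by
    rw [← h3, ← h4, ← Equiv.Perm.mul_apply, ← map_mul, mul_inv_rev, mul_inv_cancel_left]
  rw [h1] at h5
  have h6 : m (g * FreeGroup.of x) - c (g * FreeGroup.of x * (FreeGroup.of x)⁻¹, x) = m g :=
    congrArg Prod.snd h5
  rw [mul_inv_cancel_right] at h6
  change c (g, x) = m (g * FreeGroup.of x) - m g
  rw [← h6]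
  ring

theorem de_injective (y : (FreeGroup X × X) →₀ ℚ) (h1 : de X y = 0) : y = 0 := by
  classical
  ext i
  obtain ⟨a, ha⟩ := free_split (fun j : FreeGroup X × X => if j = i then (1 : ℚ) else 0)
  have h3 : ev (fun j => if j = i then (1 : ℚ) else 0) = (ev a) ∘ₗ (de X) := by
    apply Finsupp.lhom_ext
    intro p m
    rw [LinearMap.comp_apply, de_single, map_sub, ev_single, ev_single, ev_single, ha]
    ring
  have h4 := DFunLike.congr_fun h3 y
  rw [LinearMap.comp_apply, h1, map_zero] at h4
  have h5 : ev (fun j => if j = i then (1 : ℚ) else 0) = (Finsupp.lapply i : _ →ₗ[ℚ] ℚ) := by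
    apply Finsupp.lhom_ext'
    intro j
    apply LinearMap.ext_ring
    rw [LinearMap.comp_apply, LinearMap.comp_apply, lsingle_apply, ev_single, lapply_apply,
      single_apply, one_mul]
  rw [h5] at h4
  exact h4

theorem de_connect (g : FreeGroup X) : ∃ y : (FreeGroup X × X) →₀ ℚ,
    de X y = single g 1 - single 1 1 := by
  induction g using FreeGroup.induction_on with
  | C1 => exact ⟨0, by rw [map_zero, sub_self]⟩
  | of x => exact ⟨single (1, x) 1, by rw [de_single, one_mul]⟩
  | inv_of x ih =>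
    refine ⟨- single ((FreeGroup.of x)⁻¹, x) 1, ?_⟩
    rw [map_neg, de_single, inv_mul_cancel]
    abel
  | mul a b ha hb =>
    obtain ⟨y, hy⟩ := ha
    obtain ⟨w, hw⟩ := hb
    refine ⟨permRep (sE X) a w + y, ?_⟩
    rw [map_add, de_equiv, hw, hy, map_sub, permRep_single, permRep_single, sV_apply, sV_apply,
      mul_one]
    abel

theorem de_section : ∃ s : (FreeGroup X →₀ ℚ) →ₗ[ℚ] ((FreeGroup X × X) →₀ ℚ),
    (de X) ∘ₗ s = LinearMap.id - (lsingle 1) ∘ₗ (aug (FreeGroup X)) := by
  choose y hy1 using fun i : FreeGroup X => de_connect i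
  refine ⟨Finsupp.linearCombination ℚ y, ?_⟩
  apply Finsupp.lhom_ext'
  intro i
  apply LinearMap.ext_ring
  rw [LinearMap.comp_apply, LinearMap.comp_apply, LinearMap.comp_apply, LinearMap.sub_apply,
    lsingle_apply, Finsupp.linearCombination_single, one_smul, hy1,
    LinearMap.comp_apply, aug_single, LinearMap.id_apply, lsingle_apply]

theorem aug_sV (g : FreeGroup X) (y : FreeGroup X →₀ ℚ) :
    aug (FreeGroup X) (permRep (sV X) g y) = tQ (FreeGroup X) g (aug (FreeGroup X) y) := by
  have e : (aug (FreeGroup X)) ∘ₗ (permRep (sV X) g) = aug (FreeGroup X) := by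
    apply Finsupp.lhom_ext
    intro i m
    rw [LinearMap.comp_apply, permRep_single, aug_single, aug_single]
  exact DFunLike.congr_fun e y

/-- **The homology of free groups vanishes above degree one.** -/
theorem free_van (n : ℕ) (z : T (n + 2) (FreeGroup X) ℚ)
    (hz : dd (tQ (FreeGroup X)) (n + 1) z = 0) :
    z ∈ LinearMap.range (dd (tQ (FreeGroup X)) (n + 2)) := by
  obtain ⟨s, hs⟩ := de_section (X := X)
  have haug : ∀ (k : ℕ) (y : T k (FreeGroup X) ℚ),
      mp k id (aug (FreeGroup X)) (mp k id (lsingle 1) y) = y := by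
    intro k y
    rw [mp_mp]
    have e1 : (aug (FreeGroup X)) ∘ₗ (lsingle 1) = LinearMap.id := by
      apply LinearMap.ext
      intro m
      exact aug_single _ m
    rw [e1]
    exact mp_id _ _
  have hddaug : ∀ (k : ℕ) (y : T (k + 1) (FreeGroup X) (FreeGroup X →₀ ℚ)),
      dd (tQ (FreeGroup X)) k (mp (k + 1) id (aug (FreeGroup X)) y) =
        mp k id (aug (FreeGroup X)) (dd (permRep (sV X)) k y) := fun k y =>
    dd_mp (ρ := permRep (sV X)) (τ := tQ (FreeGroup X)) (MonoidHom.id _) (aug (FreeGroup X))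
      (fun g m => aug_sV g m) k y
  have hddde : ∀ (k : ℕ) (y : T (k + 1) (FreeGroup X) ((FreeGroup X × X) →₀ ℚ)),
      dd (permRep (sV X)) k (mp (k + 1) id (de X) y) =
        mp k id (de X) (dd (permRep (sE X)) k y) := fun k y =>
    dd_mp (ρ := permRep (sE X)) (τ := permRep (sV X)) (MonoidHom.id _) (de X)
      (fun g m => de_equiv g m) k y
  set zt : T (n + 2) (FreeGroup X) (FreeGroup X →₀ ℚ) := mp (n + 2) id (lsingle 1) z with hzt
  set k := dd (permRep (sV X)) (n + 1) zt with hk
  have hk0 : mp (n + 1) id (aug (FreeGroup X)) k = 0 := by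
    rw [hk, ← hddaug, hzt, haug, hz]
  set k' := mp (n + 1) id s k with hk'
  have hke : mp (n + 1) id (de X) k' = k := by
    rw [hk', mp_mp, hs]
    apply Finsupp.ext
    intro x
    have h1 := DFunLike.congr_fun hk0 x
    rw [mp_id_apply] at h1
    change mp (n + 1) id _ k x = k x
    rw [mp_id_apply, LinearMap.sub_apply, LinearMap.comp_apply, h1]
    simp
  have hk'cyc : dd (permRep (sE X)) n k' = 0 := by
    apply Finsupp.ext
    intro x
    apply de_injective
    rw [← mp_id_apply, ← hddde, hke, hk, dd_dd]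
    rfl
  obtain ⟨w, hw⟩ := free_acyc (sE X) (fun p => p.1) (fun _ _ => rfl) n k' hk'cyc
  have h2 : dd (permRep (sV X)) (n + 1) (zt - mp (n + 2) id (de X) w) = 0 := by
    rw [map_sub, hddde, hw, hke, ← hk, sub_self]
  obtain ⟨v, hv⟩ := free_acyc (sV X) (fun p => p) (fun _ _ => rfl) (n + 1) _ h2
  refine ⟨mp (n + 3) id (aug (FreeGroup X)) v, ?_⟩
  rw [hddaug, hv, map_sub, hzt, haug, mp_mp]
  have e1 : (aug (FreeGroup X)) ∘ₗ (de X) = 0 := by
    apply Finsupp.lhom_ext
    intro p m
    rw [LinearMap.comp_apply, de_single, map_sub, aug_single, aug_single, sub_self,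
      LinearMap.zero_apply]
  rw [e1]
  have e2 : mp (n + 2) (id ∘ id) (0 : ((FreeGroup X × X) →₀ ℚ) →ₗ[ℚ] ℚ) w = 0 := by
    apply Finsupp.ext
    intro x
    change mp (n + 2) id _ w x = 0
    rw [mp_id_apply]
    rfl
  rw [e2, sub_zero]

end Free

end Pool.Agent.N316.NV
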