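import Pool.Agent.Y110.KW.MV

/-!
HNN extensions: the rational homology of the base group embeds in the rational homology of the
extension in the degrees in which the homology of the associated subgroup vanishes.
-/

namespace Pool.Agent.N316.NV

open Finsupp Pool.Agent.Y483 Pool.Agent.Y110.KW

variable {G : Type} [Group G]

/-- `G` is the HNN extension of its subgroup `H` with the stable letter `t` and the associated
subgroups `C` and `t C t⁻¹`. -/
structure Hn (H C : Subgroup G) (t : G) : Prop where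
  le : C ≤ H
  conj : ∀ c ∈ C, t * c * t⁻¹ ∈ H
  gen : H ⊔ Subgroup.zpowers t = ⊤
  univ : ∀ (P : Type) [Group P] (f : H →* P) (p : P),
    (∀ (c : G) (hc : c ∈ C), p * f ⟨c, le hc⟩ = f ⟨t * c * t⁻¹, conj c hc⟩ * p) →
    ∃ h : G →* P, (∀ a : H, h a = f a) ∧ h t = p

variable {H C : Subgroup G} {t : G}

/-- `g C ↦ g t⁻¹ H` -/
def shQ (hh : Hn H C t) : G ⧸ C → G ⧸ H :=
  Quotient.map' (fun g => g * t⁻¹) (by
    intro a b hab
    rw [QuotientGroup.leftRel_apply] at *
    have := hh.conj _ hab
    have e : (a * t⁻¹)⁻¹ * (b * t⁻¹) = t * (a⁻¹ * b) * t⁻¹ := by group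
    rw [e]
    exact this)

theorem shQ_mk (hh : Hn H C t) (g : G) :
    shQ hh (QuotientGroup.mk g) = QuotientGroup.mk (g * t⁻¹) := rfl

/-- `g C ↦ g H - g t⁻¹ H` -/
noncomputable def ed (hh : Hn H C t) : ((G ⧸ C) →₀ ℚ) →ₗ[ℚ] ((G ⧸ H) →₀ ℚ) :=
  pr hh.le - Finsupp.lmapDomain ℚ ℚ (shQ hh)

theorem ed_single (hh : Hn H C t) (g : G) (m : ℚ) : ed hh (single (QuotientGroup.mk g) m) =
    single (QuotientGroup.mk g) m - single (QuotientGroup.mk (g * t⁻¹)) m := by
  unfold ed
  rw [LinearMap.sub_apply, pr_single, lmapDomain_apply, mapDomain_single, shQ_mk]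

theorem ed_perm (hh : Hn H C t) (g : G) (y : (G ⧸ C) →₀ ℚ) :
    ed hh (perm C g y) = perm H g (ed hh y) := by
  have e : (ed hh) ∘ₗ (perm C g) = (perm H g) ∘ₗ (ed hh) := by
    apply coset_ext
    intro x
    rw [LinearMap.comp_apply, LinearMap.comp_apply, perm_single, ed_single, map_sub, perm_single,
      perm_single]
    have h1 : g • (QuotientGroup.mk x : G ⧸ C) = QuotientGroup.mk (g * x) := rfl
    have h2 : g • (QuotientGroup.mk x : G ⧸ H) = QuotientGroup.mk (g * x) := rfl
    have h3 : g • (QuotientGroup.mk (x * t⁻¹) : G ⧸ H) = QuotientGroup.mk (g * x * t⁻¹) := by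
      rw [mul_assoc]; rfl
    rw [h1, h2, h3, ed_single]
  exact DFunLike.congr_fun e y

theorem aug_ed (hh : Hn H C t) (y : (G ⧸ C) →₀ ℚ) : aug (G ⧸ H) (ed hh y) = 0 := by
  have e : (aug (G ⧸ H)) ∘ₗ (ed hh) = 0 := by
    apply coset_ext
    intro x
    rw [LinearMap.comp_apply, ed_single, map_sub, aug_single, aug_single, sub_self,
      LinearMap.zero_apply]
  exact DFunLike.congr_fun e y

/-- The tree has no closed edge paths. -/
theorem Hn.split (hh : Hn H C t) (c : G ⧸ C → ℚ) :
    ∃ a : G ⧸ H → ℚ, ∀ x : G, c (QuotientGroup.mk x) =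
      a (QuotientGroup.mk x) - a (QuotientGroup.mk (x * t⁻¹)) := by
  let f : H →* Equiv.Perm (G × ℚ) :=
    { toFun := fun a =>
        { toFun := fun p => (p.1 * (a : G)⁻¹, p.2)
          invFun := fun p => (p.1 * (a : G), p.2)
          left_inv := fun p => by simp
          right_inv := fun p => by simp }
      map_one' := by ext p <;> simp
      map_mul' := fun a a' => by ext p <;> simp [mul_assoc] }
  let T : Equiv.Perm (G × ℚ) :=
    { toFun := fun p => (p.1 * t⁻¹, p.2 - c (QuotientGroup.mk p.1))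
      invFun := fun p => (p.1 * t, p.2 + c (QuotientGroup.mk (p.1 * t)))
      left_inv := fun p => by
        apply Prod.ext
        · simp
        · simp
      right_inv := fun p => by
        apply Prod.ext
        · simp
        · simp }
  obtain ⟨h, h1, h2⟩ := hh.univ _ f T (by
    intro g hg
    apply Equiv.ext
    intro p
    apply Prod.ext
    · change p.1 * g⁻¹ * t⁻¹ = p.1 * t⁻¹ * (t * g * t⁻¹)⁻¹
      group
    · change p.2 - c (QuotientGroup.mk (p.1 * g⁻¹)) = p.2 - c (QuotientGroup.mk p.1)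
      have : (QuotientGroup.mk (p.1 * g⁻¹) : G ⧸ C) = QuotientGroup.mk p.1 := by
        rw [QuotientGroup.eq]
        simpa using hg
      rw [this])
  have hfst : ∀ (g : G) (p : G × ℚ), (h g p).1 = p.1 * g⁻¹ := by
    let K : Subgroup G :=
      { carrier := {g | ∀ p : G × ℚ, (h g p).1 = p.1 * g⁻¹}
        mul_mem' := fun {a b} ha hb p => by
          rw [map_mul, Equiv.Perm.mul_apply, ha, hb, mul_inv_rev, mul_assoc]
        one_mem' := fun p => by rw [map_one, Equiv.Perm.one_apply, inv_one, mul_one]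
        inv_mem' := fun {a} ha p => by
          have h3 := ha (h a⁻¹ p)
          rw [← Equiv.Perm.mul_apply, ← map_mul, mul_inv_cancel, map_one,
            Equiv.Perm.one_apply] at h3
          rw [h3]
          group }
    have hK : K = ⊤ := by
      rw [eq_top_iff, ← hh.gen, sup_le_iff]
      constructor
      · intro a ha p
        rw [show a = ((⟨a, ha⟩ : H) : G) from rfl, h1]
        rfl
      · rw [Subgroup.zpowers_le]
        intro p
        rw [h2]
        rfl
    intro g p
    have : g ∈ K := by rw [hK]; trivial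
    exact this p
  let m : G → ℚ := fun x => (h x⁻¹ (1, 0)).2
  have hm : ∀ x : G, h x⁻¹ (1, 0) = (x, m x) := fun x => by
    apply Prod.ext
    · rw [hfst]; simp
    · rfl
  have hma : ∀ (x a : G), a ∈ H → m (x * a) = m x := by
    intro x a ha
    have h3 := hm (x * a)
    rw [mul_inv_rev, map_mul, Equiv.Perm.mul_apply, hm,
      show a⁻¹ = ((⟨a⁻¹, H.inv_mem ha⟩ : H) : G) from rfl, h1] at h3
    exact (congrArg Prod.snd h3).symm
  have hmt : ∀ x : G, m (x * t⁻¹) = m x - c (QuotientGroup.mk x) := by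
    intro x
    have h3 := hm (x * t⁻¹)
    rw [mul_inv_rev, inv_inv, map_mul, Equiv.Perm.mul_apply, hm, h2] at h3
    exact (congrArg Prod.snd h3).symm
  refine ⟨Quotient.lift m ?_, ?_⟩
  · intro x y hxy
    have h3 : x⁻¹ * y ∈ H := QuotientGroup.leftRel_apply.mp hxy
    have := hma x _ h3
    rw [mul_inv_cancel_left] at this
    exact this.symm
  · intro x
    change c (QuotientGroup.mk x) = m x - m (x * t⁻¹)
    rw [hmt]
    ring

theorem Hn.injective (hh : Hn H C t) (y : (G ⧸ C) →₀ ℚ) (h1 : ed hh y = 0) : y = 0 := by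
  classical
  ext i
  obtain ⟨a, ha⟩ := hh.split (fun j => if j = i then (1 : ℚ) else 0)
  have h3 : ev (fun j => if j = i then (1 : ℚ) else 0) = (ev a) ∘ₗ (ed hh) := by
    apply coset_ext
    intro x
    rw [LinearMap.comp_apply, ed_single, map_sub, ev_single, ev_single, ev_single, ha]
    ring
  have h4 := DFunLike.congr_fun h3 y
  rw [LinearMap.comp_apply, h1, map_zero] at h4
  have h5 : ev (fun j => if j = i then (1 : ℚ) else 0) = (Finsupp.lapply i : _ →ₗ[ℚ] ℚ) := by
    apply Finsupp.lhom_ext'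
    intro j
    apply LinearMap.ext_ring
    rw [LinearMap.comp_apply, LinearMap.comp_apply, lsingle_apply, ev_single, lapply_apply,
      single_apply, one_mul]
  rw [h5] at h4
  exact h4

theorem Hn.connect (hh : Hn H C t) (g : G) : ∃ y : (G ⧸ C) →₀ ℚ,
    ed hh y = single (QuotientGroup.mk g) 1 - single (QuotientGroup.mk 1) 1 := by
  let K : Subgroup G :=
    { carrier := {g | ∃ y : (G ⧸ C) →₀ ℚ,
        ed hh y = single (QuotientGroup.mk g) 1 - single (QuotientGroup.mk 1) 1}
      mul_mem' := by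
        rintro a b ⟨y, hy1⟩ ⟨w, hw1⟩
        refine ⟨perm C a w + y, ?_⟩
        rw [map_add, ed_perm, hw1, hy1, map_sub, perm_single, perm_single]
        have e1 : a • (QuotientGroup.mk b : G ⧸ H) = QuotientGroup.mk (a * b) := rfl
        have e2 : a • (QuotientGroup.mk 1 : G ⧸ H) = QuotientGroup.mk a := by
          change QuotientGroup.mk (a * 1) = _
          rw [mul_one]
        rw [e1, e2]
        abel
      one_mem' := ⟨0, by rw [map_zero, sub_self]⟩
      inv_mem' := by
        rintro a ⟨y, hy1⟩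
        refine ⟨- perm C a⁻¹ y, ?_⟩
        rw [map_neg, ed_perm, hy1, map_sub, perm_single, perm_single]
        have e1 : a⁻¹ • (QuotientGroup.mk a : G ⧸ H) = QuotientGroup.mk 1 := by
          change QuotientGroup.mk (a⁻¹ * a) = _
          rw [inv_mul_cancel]
        have e2 : a⁻¹ • (QuotientGroup.mk 1 : G ⧸ H) = QuotientGroup.mk a⁻¹ := by
          change QuotientGroup.mk (a⁻¹ * 1) = _
          rw [mul_one]
        rw [e1, e2]
        abel }
  have hK : K = ⊤ := by
    rw [eq_top_iff, ← hh.gen, sup_le_iff]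
    constructor
    · intro a ha
      refine ⟨0, ?_⟩
      rw [map_zero, eq_comm, sub_eq_zero]
      congr 1
      rw [QuotientGroup.eq]
      simpa using ha
    · rw [Subgroup.zpowers_le]
      refine ⟨single (QuotientGroup.mk t) 1, ?_⟩
      rw [ed_single, mul_inv_cancel]
  have : g ∈ K := by rw [hK]; trivial
  exact this

/-- The section. -/
theorem Hn.section_ (hh : Hn H C t) : ∃ s : ((G ⧸ H) →₀ ℚ) →ₗ[ℚ] ((G ⧸ C) →₀ ℚ),
    (ed hh) ∘ₗ s = LinearMap.id - (lsingle (QuotientGroup.mk 1)) ∘ₗ (aug (G ⧸ H)) := by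
  choose y hy1 using fun i : G ⧸ H => hh.connect (rp H i)
  refine ⟨Finsupp.linearCombination ℚ y, ?_⟩
  apply Finsupp.lhom_ext'
  intro i
  apply LinearMap.ext_ring
  rw [LinearMap.comp_apply, LinearMap.comp_apply, LinearMap.comp_apply, LinearMap.sub_apply,
    lsingle_apply, Finsupp.linearCombination_single, one_smul, hy1, mk_rp,
    LinearMap.comp_apply, aug_single, LinearMap.id_apply, lsingle_apply]

theorem dd_ed (hh : Hn H C t) (n : ℕ) (z : T (n + 1) G ((G ⧸ C) →₀ ℚ)) :
    dd (perm H) n (mp (n + 1) id (ed hh) z) = mp n id (ed hh) (dd (perm C) n z) :=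
  dd_mp (ρ := perm C) (τ := perm H) (MonoidHom.id G) (ed hh) (fun g m => ed_perm hh g m) n z

end Pool.Agent.N316.NV
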