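import Pool.Agent.N316.NV.One
import Pool.Agent.N316.NV.Emb

/-!
The universal group and the universal ring.
-/

namespace Pool.Agent.N316.NV

open Finsupp Pool.Agent.Y483 Pool.Agent.Y110.KW Pool.Agent.N506 CategoryTheory

/-- The free product of the finitely presented groups. -/
abbrev UU : Type := Monoid.CoprodI PG

theorem countable_coprod {ι : Type} [Countable ι] (P : ι → Type) [∀ i, Group (P i)]
    [∀ i, Countable (P i)] : Countable (Monoid.CoprodI P) := by
  let q : FreeGroup (Σ i, P i) →* Monoid.CoprodI P := FreeGroup.lift fun p => Monoid.CoprodI.of p.2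
  have hq : Function.Surjective q := by
    rw [← MonoidHom.range_eq_top, eq_top_iff]
    intro x _
    induction x using Monoid.CoprodI.induction_on with
    | one => exact one_mem _
    | of i m => exact ⟨FreeGroup.of ⟨i, m⟩, FreeGroup.lift_apply_of⟩
    | mul x y hx hy => exact mul_mem (hx trivial) (hy trivial)
  have : Countable (FreeGroup (Σ i, P i)) := inferInstance
  exact hq.countable

theorem countable_UU : Countable UU := by
  have : ∀ i : Idx, Countable (PG i) := fun i =>
    (QuotientGroup.mk_surjective (s := Subgroup.normalClosure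
      (i.2 : Set (FreeGroup (Fin i.1))))).countable
  exact countable_coprod PG

theorem exists_pi (U : Type) [Group U] [Countable U] :
    ∃ π : FreeGroup ℤ →* U, Function.Surjective π := by
  obtain ⟨e, he⟩ := exists_surjective_nat U
  refine ⟨FreeGroup.lift fun k : ℤ => e k.toNat, fun u => ?_⟩
  obtain ⟨n, rfl⟩ := he u
  refine ⟨FreeGroup.of (n : ℤ), ?_⟩
  rw [FreeGroup.lift_apply_of, Int.toNat_natCast]

section Emb

variable {U : Type} [Group U] (π : FreeGroup ℤ →* U) (hπ : Function.Surjective π)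

include hπ in
/-- The elements of `U` are mapped to elementary matrices. -/
theorem mem_elem {n : ℕ} (i j : Fin n) (hij : i ≠ j) (u : U) :
    (dg i (ofU (kV π u)) : (Matrix (Fin n) (Fin n) (MonoidAlgebra ℤ (VV π)))ˣ) ∈
      elem n (MonoidAlgebra ℤ (VV π)) := by
  obtain ⟨w, rfl⟩ := hπ u
  have e : (ofU (kV π (π w)) : (MonoidAlgebra ℤ (VV π))ˣ) =
      ofU HNNExtension.t * ofU (fV π (SemidirectProduct.inl w)) * (ofU HNNExtension.t)⁻¹ *
        (ofU (fV π (SemidirectProduct.inl w)))⁻¹ := by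
    rw [kV_comm, map_mul, map_mul, map_mul, map_inv, map_inv]
  rw [e]
  exact dg_comm_mem i j hij _ _

/-- The embedding in a group of matrices. -/
noncomputable def toH {n : ℕ} (i j : Fin n) (hij : i ≠ j)
    (H : Subgroup (Matrix (Fin n) (Fin n) (MonoidAlgebra ℤ (VV π)))ˣ)
    (hH : elem n (MonoidAlgebra ℤ (VV π)) ≤ H) : U →* H :=
  MonoidHom.codRestrict ((dg i).comp (ofU.comp (kV π))) H
    fun u => hH (mem_elem π hπ i j hij u)

theorem toH_inj {n : ℕ} (i j : Fin n) (hij : i ≠ j)
    (H : Subgroup (Matrix (Fin n) (Fin n) (MonoidAlgebra ℤ (VV π)))ˣ)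
    (hH : elem n (MonoidAlgebra ℤ (VV π)) ≤ H) (k : ℕ) (x : HQ (k + 2) U)
    (hx : hqMap (toH π hπ i j hij H hH) (k + 2) x = 0) : x = 0 :=
  emb_inj i H (kV π) (toH π hπ i j hij H hH) (fun _ => rfl) (k + 2)
    (fun y hy => kV_inj π k y hy) x hx

end Emb

theorem of_inj {P : Idx → Type} [∀ i, Group (P i)] (i : Idx) (j : ℕ) (x : HQ j (P i))
    (hx : hqMap (Monoid.CoprodI.of : P i →* Monoid.CoprodI P) j x = 0) : x = 0 := by
  classical
  let r : Monoid.CoprodI P →* P i := Monoid.CoprodI.lift (Pi.mulSingle i (MonoidHom.id (P i)))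
  have h : r.comp Monoid.CoprodI.of = MonoidHom.id (P i) := by
    ext x
    rw [MonoidHom.comp_apply, Monoid.CoprodI.lift_of, Pi.mulSingle_eq_same]
  have h2 : hqMap r j (hqMap (Monoid.CoprodI.of : P i →* Monoid.CoprodI P) j x) = x := by
    rw [← hqMap_comp, h, hqMap_id]
  rw [← h2, hx, map_zero]

theorem ring_gen (V : Type) [Group V] (S : Set V) (hS : Subgroup.closure S = ⊤) :
    Subring.closure ((fun v : V => (MonoidAlgebra.single v 1 : MonoidAlgebra ℤ V)) ''
      (S ∪ (fun v => v⁻¹) '' S)) = ⊤ := by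
  set K := Subring.closure ((fun v : V => (MonoidAlgebra.single v 1 : MonoidAlgebra ℤ V)) ''
      (S ∪ (fun v => v⁻¹) '' S)) with hK
  have h1 : ∀ v : V, (MonoidAlgebra.single v 1 : MonoidAlgebra ℤ V) ∈ K ∧
      (MonoidAlgebra.single v⁻¹ 1 : MonoidAlgebra ℤ V) ∈ K := by
    intro v
    have hv : v ∈ Subgroup.closure S := by rw [hS]; trivial
    induction hv using Subgroup.closure_induction with
    | mem x hx =>
      exact ⟨Subring.subset_closure ⟨x, Or.inl hx, rfl⟩,
        Subring.subset_closure ⟨x⁻¹, Or.inr ⟨x, hx, rfl⟩, rfl⟩⟩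
    | one =>
      rw [inv_one]
      exact ⟨one_mem K, one_mem K⟩
    | mul x y _ _ hx hy =>
      constructor
      · have := mul_mem hx.1 hy.1
        rwa [MonoidAlgebra.single_mul_single, one_mul] at this
      · have := mul_mem hy.2 hx.2
        rwa [MonoidAlgebra.single_mul_single, one_mul, ← mul_inv_rev] at this
    | inv x _ hx =>
      rw [inv_inv]
      exact ⟨hx.2, hx.1⟩
  rw [eq_top_iff]
  intro x _
  clear hK
  induction x using MonoidAlgebra.induction_linear with
  | zero => exact zero_mem _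
  | add x y hx hy => exact add_mem (hx trivial) (hy trivial)
  | single g n =>
    have : (MonoidAlgebra.single g n : MonoidAlgebra ℤ V) = n • MonoidAlgebra.single g 1 := by
      rw [MonoidAlgebra.smul_single, smul_eq_mul, mul_one]
    rw [this]
    exact zsmul_mem (h1 g).1 n

theorem ring_gen_fin (V : Type) [Group V] (g : Fin 3 → V)
    (hg : Subgroup.closure (Set.range g) = ⊤) :
    ∃ s : Finset (MonoidAlgebra ℤ V), Subring.closure (s : Set (MonoidAlgebra ℤ V)) = ⊤ := by
  have hfin : ((fun v : V => (MonoidAlgebra.single v 1 : MonoidAlgebra ℤ V)) ''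
      (Set.range g ∪ (fun v => v⁻¹) '' Set.range g)).Finite :=
    ((Set.finite_range g).union ((Set.finite_range g).image _)).image _
  refine ⟨hfin.toFinset, ?_⟩
  rw [Set.Finite.coe_toFinset]
  exact ring_gen V (Set.range g) hg

/-- A countable group which receives all finitely presented groups. -/
theorem exists_U : ∃ (U : Type) (_ : Group U), Countable U ∧ ∃ f : ∀ i, PG i →* U,
    ∀ (i : Idx) (j : ℕ) (x : HQ j (PG i)), hqMap (f i) j x = 0 → x = 0 :=
  ⟨UU, inferInstance, countable_UU, fun _ => Monoid.CoprodI.of, fun i j x hx => of_inj i j x hx⟩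

section Parts

variable {U : Type} [Group U] (f : ∀ i, PG i →* U)
  (hf : ∀ (i : Idx) (j : ℕ) (x : HQ j (PG i)), hqMap (f i) j x = 0 → x = 0)
  (π : FreeGroup ℤ →* U)

include hf

theorem part_one (E : GrpCat.{0} ⥤ ModuleCat.{0} ℚ) (hE : Cont E)
    (G : Type) [Group G] : RDet (fun B => B = zn 1 ∨ B = GrpCat.of (VV π)) E G := by
  refine RDet.one_group hE (VV π) (fun i => (kV π).comp (f i)) ?_ G
  intro i j x hx
  rw [hqMap_comp] at hx
  exact hf i (j + 2) x (kV_inj π j _ hx)

theorem part_two (hπ : Function.Surjective π) (n : ℕ) (hn : 2 ≤ n)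
    (H : Subgroup (Matrix (Fin n) (Fin n) (MonoidAlgebra ℤ (VV π)))ˣ)
    (hH : elem n (MonoidAlgebra ℤ (VV π)) ≤ H)
    (E : GrpCat.{0} ⥤ ModuleCat.{0} ℚ) (hE : Cont E)
    (G : Type) [Group G] : RDet (fun B => B = zn 1 ∨ B = GrpCat.of H) E G := by
  have h01 : (⟨0, by omega⟩ : Fin n) ≠ ⟨1, by omega⟩ := by
    intro h
    have := congrArg Fin.val h
    simp at this
  refine RDet.one_group hE H (fun i => (toH π hπ _ _ h01 H hH).comp (f i)) ?_ G
  intro i j x hx
  rw [hqMap_comp] at hx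
  exact hf i (j + 2) x (toH_inj π hπ _ _ h01 H hH j _ hx)

end Parts

/-- **The universal group and ring.** -/
theorem universal : ∃ (V : Type) (_ : Group V),
    (∃ g : Fin 3 → V, Subgroup.closure (Set.range g) = ⊤) ∧
    (∃ s : Finset (MonoidAlgebra ℤ V), Subring.closure (s : Set (MonoidAlgebra ℤ V)) = ⊤) ∧
    (∀ (E : GrpCat.{0} ⥤ ModuleCat.{0} ℚ), Cont E → ∀ (G : Type) [Group G],
      RDet (fun B => B = zn 1 ∨ B = GrpCat.of V) E G) ∧
    ∀ n : ℕ, 2 ≤ n → ∀ H : Subgroup (Matrix (Fin n) (Fin n) (MonoidAlgebra ℤ V))ˣ,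
      elem n (MonoidAlgebra ℤ V) ≤ H → ∀ (E : GrpCat.{0} ⥤ ModuleCat.{0} ℚ), Cont E →
      ∀ (G : Type) [Group G], RDet (fun B => B = zn 1 ∨ B = GrpCat.of H) E G := by
  obtain ⟨U, iU, hc, f, hf⟩ := exists_U
  obtain ⟨π, hπ⟩ := exists_pi U
  exact ⟨VV π, inferInstance, ⟨gnV π, gen_VV π hπ⟩, ring_gen_fin _ _ (gen_VV π hπ),
    part_one f hf π, part_two f hf π hπ⟩

end Pool.Agent.N316.NV
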