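import Pool.Agent.N316.NV.Uni
import Pool.Agent.N506.Gen

/-!
Rational homology classes of degree one of finitely generated groups are detected by homomorphisms
to `ℤ`; every group is a directed colimit of directed colimits of finitely presented groups.
-/

namespace Pool.Agent.N316.NV

open Finsupp Pool.Agent.Y483 Pool.Agent.Y110.KW Pool.Agent.N506 CategoryTheory

section DegreeOne

theorem dd_one {G : Type} [Group G] (g h : G) (m : ℚ) :
    dd (tQ G) 1 (single ![g, h] m) = single (fun _ => h) m - single (fun _ => g * h) m +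
      single (fun _ => g) m := by
  rw [dd_single, Fin.sum_univ_two]
  have e0 : (fun i : Fin 1 => (![g, h] : Fin 2 → G) i.succ) = fun _ => h := by
    funext i
    rw [Fin.fin_one_eq_zero i]
    rfl
  have e1 : Fin.contractNth 0 (· * ·) (![g, h] : Fin 2 → G) = fun _ => g * h := by
    funext i
    rw [Fin.fin_one_eq_zero i]
    rfl
  have e2 : Fin.contractNth 1 (· * ·) (![g, h] : Fin 2 → G) = fun _ => g := by
    funext i
    rw [Fin.fin_one_eq_zero i]
    rfl
  rw [e0, e1, e2, tQ_apply, LinearMap.id_apply]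
  simp only [Fin.val_zero, Fin.val_one, zero_add, pow_one, neg_smul, one_smul]
  norm_num
  abel

theorem det_one {P : Type} [Group P] (S : Finset P) (hS : Subgroup.closure (S : Set P) = ⊤)
    (x : HQ 1 P) (hx : x ≠ 0) : ∃ f : P →* Zn 1, hqMap f 1 x ≠ 0 := by
  obtain ⟨z, hz⟩ := exists_rpr (Rep.trivial ℚ P ℚ) 1 x
  have h1 : z ∉ LinearMap.range (dd (tQ P) 1) := fun h => hx (hz.eq_zero_iff.mpr h)
  obtain ⟨l, hl1, hl2⟩ := Submodule.exists_dual_map_eq_bot_of_notMem h1 inferInstance
  have hl3 : ∀ y, l (dd (tQ P) 1 y) = 0 := by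
    intro y
    have : l (dd (tQ P) 1 y) ∈ Submodule.map l (LinearMap.range (dd (tQ P) 1)) :=
      Submodule.mem_map_of_mem (LinearMap.mem_range_self _ y)
    rw [hl2] at this
    exact (Submodule.mem_bot ℚ).mp this
  let φ : P → ℚ := fun g => l (single (fun _ => g) 1)
  have hφ : ∀ g h, φ (g * h) = φ g + φ h := by
    intro g h
    have h2 := hl3 (single ![g, h] 1)
    rw [dd_one, map_add, map_sub] at h2
    change l (single (fun _ => g * h) 1) = l (single (fun _ => g) 1) + l (single (fun _ => h) 1)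
    linarith
  have hφ1 : φ 1 = 0 := by
    have := hφ 1 1
    rw [mul_one] at this
    linarith
  have hφi : ∀ g, φ g⁻¹ = - φ g := by
    intro g
    have := hφ g g⁻¹
    rw [mul_inv_cancel, hφ1] at this
    linarith
  let N : ℕ := ∏ s ∈ S, (φ s).den
  have hN : N ≠ 0 := Finset.prod_ne_zero_iff.mpr fun s _ => (φ s).den_nz
  have hint : ∀ g : P, ∃ m : ℤ, (N : ℚ) * φ g = m := by
    let K : Subgroup P :=
      { carrier := {g | ∃ m : ℤ, (N : ℚ) * φ g = m}
        mul_mem' := by
          rintro a b ⟨m, hm⟩ ⟨m', hm'⟩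
          exact ⟨m + m', by rw [hφ, mul_add, hm, hm']; push_cast; rfl⟩
        one_mem' := ⟨0, by rw [hφ1]; simp⟩
        inv_mem' := by
          rintro a ⟨m, hm⟩
          exact ⟨-m, by rw [hφi, mul_neg, hm]; push_cast; rfl⟩ }
    have hK : K = ⊤ := by
      rw [eq_top_iff, ← hS, Subgroup.closure_le]
      intro s hs
      obtain ⟨k, hk⟩ : (φ s).den ∣ N := Finset.dvd_prod_of_mem _ hs
      refine ⟨k * (φ s).num, ?_⟩
      have h3 : ((φ s).den : ℚ) * φ s = (φ s).num := by
        rw [mul_comm]
        exact Rat.mul_den_eq_num _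
      rw [hk]
      push_cast
      rw [mul_comm ((φ s).den : ℚ), mul_assoc, h3]
    intro g
    have : g ∈ K := by rw [hK]; trivial
    exact this
  choose f0 hf0 using hint
  have hf0m : ∀ g h, f0 (g * h) = f0 g + f0 h := by
    intro g h
    have h3 := hf0 (g * h)
    rw [hφ, mul_add, hf0, hf0] at h3
    exact_mod_cast h3.symm
  let f : P →* Zn 1 := MonoidHom.mk' (fun g => Multiplicative.ofAdd (fun _ => f0 g)) (by
    intro a b
    rw [← ofAdd_add]
    congr 1
    funext i
    exact hf0m a b)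
  let L : T 1 (Zn 1) ℚ →ₗ[ℚ] ℚ :=
    lsum ℚ fun y => (((y 0).toAdd 0 : ℤ) : ℚ) • (LinearMap.id : ℚ →ₗ[ℚ] ℚ)
  have hL : ∀ (y : Fin 1 → Zn 1) (m : ℚ), L (single y m) = (((y 0).toAdd 0 : ℤ) : ℚ) * m := by
    intro y m
    change (lsum ℚ _) (single y m) = _
    rw [lsum_single]
    rfl
  have hLd : L ∘ₗ (dd (tQ (Zn 1)) 1) = 0 := by
    apply T_ext
    intro y m
    have e : y = ![y 0, y 1] := by
      funext i
      fin_cases i <;> rfl
    rw [LinearMap.comp_apply, e, dd_one, map_add, map_sub, hL, hL, hL, LinearMap.zero_apply]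
    simp only [toAdd_mul, Pi.add_apply]
    push_cast
    ring
  have hLf : L ∘ₗ (mp 1 f LinearMap.id) = (N : ℚ) • l := by
    apply T_ext
    intro y m
    rw [LinearMap.comp_apply, mp_single, hL, LinearMap.smul_apply]
    have e : y = fun _ => y 0 := by
      funext i
      rw [Fin.fin_one_eq_zero i]
    have e2 : (single y m : T 1 P ℚ) = m • single (fun _ => y 0) 1 := by
      rw [smul_single, smul_eq_mul, mul_one, ← e]
    rw [e2, map_smul]
    change ((f0 (y 0) : ℤ) : ℚ) * m = (N : ℚ) • (m • φ (y 0))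
    rw [← hf0, smul_eq_mul, smul_eq_mul]
    ring
  refine ⟨f, fun h0 => ?_⟩
  obtain ⟨w, hw⟩ := (hz.hq f).eq_zero_iff.mp h0
  have h4 := DFunLike.congr_fun hLf z
  rw [LinearMap.comp_apply] at h4
  have h5 : L (mp 1 f LinearMap.id z) = 0 := by
    have h6 := DFunLike.congr_fun hLd w
    rw [LinearMap.comp_apply] at h6
    have h7 : mp 1 f LinearMap.id z = dd (tQ (Zn 1)) 1 w := hw.symm
    rw [h7, h6]
    rfl
  rw [h5, LinearMap.smul_apply] at h4
  exact (smul_ne_zero (Nat.cast_ne_zero.mpr hN) hl1) h4.symm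

theorem inj_zero {G K : Type} [Group G] [Group K] (f : G →* K) (x : HQ 0 G)
    (hx : hqMap f 0 x = 0) : x = 0 := by
  have h1 : hqMap (1 : G →* G) 0 x = x := by
    obtain ⟨z, hz⟩ := exists_rpr (Rep.trivial ℚ G ℚ) 0 x
    have h2 := (hz.hq (1 : G →* G)).sub hz
    rw [← sub_eq_zero, h2.eq_zero_iff]
    have h7 : mp 0 (1 : G →* G) LinearMap.id z = z := by
      have : mp 0 (1 : G →* G) (LinearMap.id : ℚ →ₗ[ℚ] ℚ) = LinearMap.id := by
        apply T_ext
        intro x m
        rw [mp_single]
        change single _ m = single _ m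
        congr 1
        funext i
        exact i.elim0
      rw [this]
      rfl
    rw [h7, sub_self]
    exact Submodule.zero_mem _
  have h2 : (1 : G →* G) = (1 : K →* G).comp f := rfl
  rw [← h1, h2, hqMap_comp, hx, map_zero]

end DegreeOne

section Colimits

/-- The map of quotients. -/
def qmap {F : Type} [Group F] (N M : Subgroup F) [N.Normal] [M.Normal] (h : N ≤ M) :
    F ⧸ N →* F ⧸ M := QuotientGroup.map N M (MonoidHom.id F) h

theorem qmap_mk {F : Type} [Group F] (N M : Subgroup F) [N.Normal] [M.Normal] (h : N ≤ M) (x : F) :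
    qmap N M h (QuotientGroup.mk x) = QuotientGroup.mk x := rfl

/-- The normal closure of a finite set of elements of `N`. -/
def nc {F : Type} [Group F] (N : Subgroup F) (j : Finset N) : Subgroup F :=
  Subgroup.normalClosure ((j.map (Function.Embedding.subtype (· ∈ N)) : Finset F) : Set F)

instance {F : Type} [Group F] (N : Subgroup F) (j : Finset N) : (nc N j).Normal :=
  Subgroup.normalClosure_normal

theorem nc_mono {F : Type} [Group F] (N : Subgroup F) {i j : Finset N} (h : i ≤ j) :
    nc N i ≤ nc N j :=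
  Subgroup.normalClosure_mono (Finset.coe_subset.mpr (Finset.map_subset_map.mpr h))

theorem nc_le {F : Type} [Group F] (N : Subgroup F) [N.Normal] (i : Finset N) : nc N i ≤ N :=
  Subgroup.normalClosure_le_normal (by
    intro x hx
    rw [Finset.mem_coe, Finset.mem_map] at hx
    obtain ⟨y, _, rfl⟩ := hx
    exact y.2)

theorem mem_nc {F : Type} [Group F] (N : Subgroup F) (i : Finset N) (x : N) (hx : x ∈ i) :
    (x : F) ∈ nc N i := by
  apply Subgroup.subset_normalClosure
  rw [Finset.mem_coe, Finset.mem_map]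
  exact ⟨x, hx, rfl⟩

theorem dcg_fp (F : Type) [Group F] (N : Subgroup F) [N.Normal] :
    DCG (J := Finset N) (fun j => F ⧸ nc N j) (fun i j h => qmap (nc N i) (nc N j) (nc_mono N h))
      (F ⧸ N) (fun i => qmap (nc N i) N (nc_le N i)) where
  ss i j k h h' x := by
    obtain ⟨y, rfl⟩ := QuotientGroup.mk_surjective x
    rw [qmap_mk, qmap_mk, qmap_mk]
  ts i j h x := by
    obtain ⟨y, rfl⟩ := QuotientGroup.mk_surjective x
    rw [qmap_mk, qmap_mk, qmap_mk]
  surj y := by
    obtain ⟨y, rfl⟩ := QuotientGroup.mk_surjective y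
    exact ⟨∅, QuotientGroup.mk y, qmap_mk _ _ _ _⟩
  inj i x y h := by
    classical
    obtain ⟨x, rfl⟩ := QuotientGroup.mk_surjective x
    obtain ⟨y, rfl⟩ := QuotientGroup.mk_surjective y
    rw [qmap_mk, qmap_mk, QuotientGroup.eq] at h
    refine ⟨insert ⟨x⁻¹ * y, h⟩ i, Finset.subset_insert _ _, ?_⟩
    rw [qmap_mk, qmap_mk, QuotientGroup.eq]
    exact mem_nc N _ ⟨x⁻¹ * y, h⟩ (Finset.mem_insert_self _ _)

theorem dcg_fg (G : Type) [Group G] :
    DCG (J := Finset G) (fun j => Subgroup.closure (j : Set G))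
      (fun _ _ h => Subgroup.inclusion (Subgroup.closure_mono (Finset.coe_subset.mpr h)))
      G (fun i => (Subgroup.closure (i : Set G)).subtype) where
  ss _ _ _ _ _ _ := rfl
  ts _ _ _ _ := rfl
  surj y := ⟨{y}, ⟨y, Subgroup.subset_closure (by simp)⟩, rfl⟩
  inj i x y h := ⟨i, le_refl i, congrArg _ (Subtype.ext h)⟩

/-- The finite group presentations. -/
abbrev Idx : Type := Σ n : ℕ, Finset (FreeGroup (Fin n))

/-- The finitely presented groups. -/
abbrev PG (i : Idx) : Type :=
  FreeGroup (Fin i.1) ⧸ Subgroup.normalClosure (i.2 : Set (FreeGroup (Fin i.1)))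

theorem RDet.all {𝓑 : GrpCat.{0} → Prop} {E : GrpCat.{0} ⥤ ModuleCat.{0} ℚ} (hE : Cont E)
    (h : ∀ i : Idx, RDet 𝓑 E (PG i)) (G : Type) [Group G] : RDet 𝓑 E G := by
  classical
  refine RDet.colim hE (dcg_fg G) ?_
  intro S
  let e := S.equivFin
  let q : FreeGroup (Fin S.card) →* Subgroup.closure (S : Set G) :=
    FreeGroup.lift fun k => ⟨(e.symm k : G), Subgroup.subset_closure (e.symm k).2⟩
  have hq : Function.Surjective q := by
    rw [← MonoidHom.range_eq_top, eq_top_iff]
    rintro ⟨x, hx⟩ _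
    change (⟨x, hx⟩ : Subgroup.closure (S : Set G)) ∈ q.range
    clear * -
    induction hx using Subgroup.closure_induction with
    | mem x hx =>
      refine ⟨FreeGroup.of (e ⟨x, hx⟩), ?_⟩
      apply Subtype.ext
      change ((FreeGroup.lift _ (FreeGroup.of _) : Subgroup.closure (S : Set G)) : G) = x
      rw [FreeGroup.lift_apply_of, Equiv.symm_apply_apply]
    | one => exact one_mem _
    | mul x y hx hy h1 h2 => exact mul_mem h1 h2
    | inv x hx h1 => exact inv_mem h1
  refine RDet.congr ?_ (QuotientGroup.quotientKerEquivOfSurjective q hq).symm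
  exact RDet.colim hE (dcg_fp (FreeGroup (Fin S.card)) q.ker) fun j => h ⟨S.card, _⟩

/-- One group which receives all finitely presented groups. -/
theorem RDet.one_group {E : GrpCat.{0} ⥤ ModuleCat.{0} ℚ} (hE : Cont E) (K : Type) [Group K]
    (f : ∀ i : Idx, PG i →* K)
    (hf : ∀ (i : Idx) (j : ℕ) (x : HQ (j + 2) (PG i)), hqMap (f i) (j + 2) x = 0 → x = 0)
    (G : Type) [Group G] : RDet (fun B => B = zn 1 ∨ B = GrpCat.of K) E G := by
  classical
  apply RDet.all hE
  intro i
  apply RDet.detect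
  intro j x hx
  match j, x, hx with
  | 0, x, hx =>
    exact ⟨K, inferInstance, f i, RDet.base (Or.inr rfl), fun h0 => hx (inj_zero (f i) x h0)⟩
  | 1, x, hx =>
    let S : Finset (PG i) := Finset.univ.image (fun k : Fin i.1 => QuotientGroup.mk (FreeGroup.of k))
    have hS : Subgroup.closure (S : Set (PG i)) = ⊤ := by
      rw [eq_top_iff]
      intro y _
      obtain ⟨w, rfl⟩ := QuotientGroup.mk_surjective y
      clear * -
      induction w using FreeGroup.induction_on with
      | C1 => exact one_mem _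
      | of k => exact Subgroup.subset_closure (Finset.mem_coe.mpr
          (Finset.mem_image_of_mem _ (Finset.mem_univ k)))
      | inv_of k ih => exact inv_mem ih
      | mul a b ha hb => exact mul_mem ha hb
    obtain ⟨g, hg⟩ := det_one S hS x hx
    exact ⟨Zn 1, inferInstance, g, RDet.base (Or.inl rfl), hg⟩
  | j + 2, x, hx =>
    exact ⟨K, inferInstance, f i, RDet.base (Or.inr rfl), fun h0 => hx (hf i j x h0)⟩

end Colimits

end Pool.Agent.N316.NV
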