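import Pool.Agent.N316.NV.Hnn

/-!
The map `H_n(A; ℚ) → H_n(G; ℚ[G/A])` is injective; injectivity for HNN extensions.
-/

namespace Pool.Agent.N316.NV

open Finsupp Pool.Agent.Y483 Pool.Agent.Y110.KW

variable {G : Type} [Group G]

/-- The homogeneous version of `shap`. -/
noncomputable def Fs (A : Subgroup G) (n : ℕ) : T (n + 1) G ((G ⧸ A) →₀ ℚ) →ₗ[ℚ] T n A ℚ :=
  pp (tQ A) n ∘ₗ
    comb (n + 1) (fun i : G ⧸ A => mp (n + 1) (fun x : G => toA A ((rp A i)⁻¹ * x))
      (LinearMap.id : ℚ →ₗ[ℚ] ℚ))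

theorem shap_eq (A : Subgroup G) (n : ℕ) (z : T n G ((G ⧸ A) →₀ ℚ)) :
    shap A n z = Fs A n (sg n z) := rfl

theorem Fs_single (A : Subgroup G) (n : ℕ) (x : Fin (n + 1) → G) (i : G ⧸ A) (m : ℚ) :
    Fs A n (single x (single i m)) =
      pp (tQ A) n (single (fun k => toA A ((rp A i)⁻¹ * x k)) m) := by
  unfold Fs
  rw [LinearMap.comp_apply, comb_single, mp_single]
  rfl

theorem Fs_tr (A : Subgroup G) (n : ℕ) (g : G) (z : T (n + 1) G ((G ⧸ A) →₀ ℚ)) :
    Fs A n (tr (perm A) (n + 1) g z) = Fs A n z := by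
  have h : (Fs A n) ∘ₗ (tr (perm A) (n + 1) g) = Fs A n := by
    apply TI_ext
    intro x i m
    rw [LinearMap.comp_apply, tr, mp_single, perm_single, Fs_single, Fs_single]
    set a : A := ⟨(rp A i)⁻¹ * g⁻¹ * rp A (g • i), out_smul A g i⟩ with ha
    have e : (single (fun k => toA A ((rp A i)⁻¹ * x k)) m : T (n + 1) A ℚ) =
        tr (tQ A) (n + 1) a (single (fun k => toA A ((rp A (g • i))⁻¹ *
          ((fun x => g * x) ∘ x) k)) m) := by
      rw [tr, mp_single]
      have e1 : (fun k => toA A ((rp A i)⁻¹ * x k)) = (fun x => a * x) ∘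
          (fun k => toA A ((rp A (g • i))⁻¹ * ((fun x => g * x) ∘ x) k)) := by
        funext k
        rw [Function.comp_apply, ← toA_mul]
        congr 1
        rw [ha, Function.comp_apply]
        group
      rw [e1]
      rfl
    rw [e, pp_tr]
  exact DFunLike.congr_fun h z

theorem Fs_bd (A : Subgroup G) (n : ℕ) (z : T (n + 2) G ((G ⧸ A) →₀ ℚ)) :
    Fs A n (bd (n + 1) z) = dd (tQ A) n (Fs A (n + 1) z) := by
  have h : (Fs A n) ∘ₗ (bd (n + 1)) = (dd (tQ A) n) ∘ₗ (Fs A (n + 1)) := by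
    apply TI_ext
    intro x i m
    rw [LinearMap.comp_apply, LinearMap.comp_apply, Fs_single, ← pp_bd, bd_single, bd_single,
      map_sum, map_sum]
    apply Finset.sum_congr rfl
    intro j _
    rw [map_smul, map_smul, Fs_single]
    rfl
  exact DFunLike.congr_fun h z

theorem shap_dd (A : Subgroup G) (n : ℕ) (z : T (n + 1) G ((G ⧸ A) →₀ ℚ)) :
    shap A n (dd (perm A) n z) = dd (tQ A) n (shap A (n + 1) z) := by
  rw [shap_eq, shap_eq]
  conv_lhs => rw [← pp_sg (perm A) (n + 1) z, ← pp_bd]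
  rw [← factor (perm A) n (Fs A n) (fun g z => Fs_tr A n g z), Fs_bd]

theorem shap_shInc (A : Subgroup G) (n : ℕ) (z : T n A ℚ) :
    shap A n (shInc A n z) = mp n (fun x => (toA A 1)⁻¹ * x * toA A 1) LinearMap.id z := by
  have h : (shap A n) ∘ₗ (shInc A n) =
      mp n (fun x => (toA A 1)⁻¹ * x * toA A 1) (LinearMap.id : ℚ →ₗ[ℚ] ℚ) := by
    apply T_ext
    intro x m
    rw [LinearMap.comp_apply, shap_eq, shInc, mp_single, sg_single, lsingle_apply, Fs_single,
      pp_single, mp_single]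
    have hr : (rp A (QuotientGroup.mk 1 : G ⧸ A))⁻¹ ∈ A := by
      have h1 := mk_rp A (QuotientGroup.mk 1 : G ⧸ A)
      rw [QuotientGroup.eq] at h1
      simpa using h1
    set r : A := ⟨(rp A (QuotientGroup.mk 1 : G ⧸ A))⁻¹, hr⟩ with hrdef
    have e1 : ∀ k, toA A ((rp A (QuotientGroup.mk 1 : G ⧸ A))⁻¹ *
        Fin.partialProd (A.subtype ∘ x) k) = r * Fin.partialProd x k * toA A 1 := by
      intro k
      have e2 : Fin.partialProd (A.subtype ∘ x) k = ((Fin.partialProd x k : A) : G) := by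
        have h3 : Fin.partialProd (A.subtype ∘ x) = A.subtype ∘ Fin.partialProd x := by
          funext k
          refine Fin.induction ?_ ?_ k
          · rw [Fin.partialProd_zero, Function.comp_apply, Fin.partialProd_zero, map_one]
          · intro i hi
            rw [Fin.partialProd_succ, hi]
            change A.subtype (Fin.partialProd x i.castSucc) * A.subtype (x i) =
              A.subtype (Fin.partialProd x i.succ)
            rw [Fin.partialProd_succ, map_mul]
        rw [h3]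
        rfl
      have e3 : (rp A (QuotientGroup.mk 1 : G ⧸ A))⁻¹ * ((Fin.partialProd x k : A) : G) =
          ((r * Fin.partialProd x k : A) : G) * 1 := by
        rw [mul_one, Subgroup.coe_mul]
      rw [e2, e3, toA_mul]
    congr 1
    funext i
    rw [e1, e1]
    have e4 := Fin.partialProd_right_inv x i
    rw [Function.comp_apply]
    conv_rhs => rw [← e4]
    group
  exact DFunLike.congr_fun h z

theorem shInc_bdry (A : Subgroup G) (n : ℕ) (z : T n A ℚ) (hz : Cyc (tQ A) n z)
    (h : shInc A n z ∈ LinearMap.range (dd (perm A) n)) : z ∈ LinearMap.range (dd (tQ A) n) := by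
  obtain ⟨w, hw⟩ := h
  have h1 : mp n (fun x => (toA A 1)⁻¹ * x * toA A 1) LinearMap.id z ∈
      LinearMap.range (dd (tQ A) n) := by
    refine ⟨shap A (n + 1) w, ?_⟩
    rw [← shap_dd, hw, shap_shInc]
  have h2 := plain (ρ := tQ A) (τ := tQ A) (MonoidHom.id A) LinearMap.id (fun _ _ => rfl)
    (toA A 1) n z hz
  have e1 : mp n (fun x => (toA A 1)⁻¹ * MonoidHom.id A x * toA A 1)
      ((tQ A (toA A 1)⁻¹) ∘ₗ LinearMap.id) z =
      mp n (fun x => (toA A 1)⁻¹ * x * toA A 1) LinearMap.id z := rfl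
  have e2 : mp n (MonoidHom.id A) LinearMap.id z = z := mp_id n z
  rw [e1, e2] at h2
  have h3 := Submodule.sub_mem _ h1 h2
  rwa [sub_sub_cancel] at h3

/-- **HNN extensions.** -/
theorem Hn.inj {H C : Subgroup G} {t : G} (hh : Hn H C t) (n : ℕ)
    (hC : ∀ z : T n C ℚ, Cyc (tQ C) n z → z ∈ LinearMap.range (dd (tQ C) n)) (z : T n H ℚ)
    (hz : Cyc (tQ H) n z)
    (h : mp n H.subtype LinearMap.id z ∈ LinearMap.range (dd (tQ G) n)) :
    z ∈ LinearMap.range (dd (tQ H) n) := by
  obtain ⟨w, hw⟩ := h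
  obtain ⟨s, hs⟩ := hh.section_
  have haug : ∀ (k : ℕ) (y : T k G ℚ),
      mp k id (aug (G ⧸ H)) (mp k id (lsingle (QuotientGroup.mk 1)) y) = y := by
    intro k y
    rw [mp_mp]
    have e1 : (aug (G ⧸ H)) ∘ₗ (lsingle (QuotientGroup.mk 1)) = LinearMap.id := by
      apply LinearMap.ext
      intro m
      exact aug_single _ m
    rw [e1]
    exact mp_id _ _
  have haugI : mp n id (aug (G ⧸ H)) (shInc H n z) = mp n H.subtype LinearMap.id z := by
    unfold shInc
    rw [mp_mp]
    congr 2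
    apply LinearMap.ext
    intro m
    simp
  set wt : T (n + 1) G ((G ⧸ H) →₀ ℚ) := mp (n + 1) id (lsingle (QuotientGroup.mk 1)) w with hwt
  set y := shInc H n z - dd (perm H) n wt with hy
  have hy0 : mp n id (aug (G ⧸ H)) y = 0 := by
    rw [hy, map_sub, haugI, ← dd_aug, hwt, haug, hw, sub_self]
  have hycyc : Cyc (perm H) n y := by
    cases n with
    | zero => exact Cyc.zero _ _
    | succ n =>
      rw [cyc_succ] at *
      rw [hy, map_sub, dd_shInc, hz, dd_dd, map_zero, sub_zero]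
  set y' := mp n id s y with hy'
  have hye : mp n id (ed hh) y' = y := by
    rw [hy', mp_mp, hs]
    apply Finsupp.ext
    intro x
    have h1 := DFunLike.congr_fun hy0 x
    rw [mp_id_apply] at h1
    change mp n id _ y x = y x
    rw [mp_id_apply, LinearMap.sub_apply, LinearMap.comp_apply, h1]
    simp
  have hy'cyc : Cyc (perm C) n y' := by
    cases n with
    | zero => exact Cyc.zero _ _
    | succ n =>
      rw [cyc_succ] at *
      apply Finsupp.ext
      intro x
      apply hh.injective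
      rw [← mp_id_apply, ← dd_ed, hye, hycyc]
      rfl
  obtain ⟨c, hc1, w0, hw0⟩ := shapiro C n y' hy'cyc
  obtain ⟨c', hc'⟩ := hC c hc1
  have h2 : y ∈ LinearMap.range (dd (perm H) n) := by
    refine ⟨mp (n + 1) id (ed hh) (w0 + shInc C (n + 1) c'), ?_⟩
    rw [dd_ed, map_add, hw0, dd_shInc, hc']
    rw [sub_add_cancel, hye]
  apply shInc_bdry H n z hz
  have h3 := Submodule.add_mem _ h2 (LinearMap.mem_range_self (dd (perm H) n) wt)
  rwa [hy, sub_add_cancel] at h3

end Pool.Agent.N316.NV
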