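import Pool.Agent.N316.NV.Fre

/-!
Every countable group embeds in a group with three generators such that its elements become
commutators and the embedding is injective on rational homology in the degrees above one.
-/

namespace Pool.Agent.N316.NV

open Finsupp Pool.Agent.Y483 Pool.Agent.Y110.KW

section Transport

theorem mp_comp_id {X Y Z : Type} (n : ℕ) (f : X → Y) (g : Y → Z) (z : T n X ℚ) :
    mp n g LinearMap.id (mp n f LinearMap.id z) = mp n (g ∘ f) LinearMap.id z := by
  rw [mp_mp]
  rfl

theorem range_hom {G K : Type} [Group G] [Group K] (f : G →* K) (n : ℕ) (z : T n G ℚ)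
    (hz : z ∈ LinearMap.range (dd (tQ G) n)) :
    mp n f LinearMap.id z ∈ LinearMap.range (dd (tQ K) n) :=
  range_mp (ρ := tQ G) (τ := tQ K) f LinearMap.id (fun _ _ => rfl) n z hz

theorem cyc_hom {G K : Type} [Group G] [Group K] (f : G →* K) (n : ℕ) (z : T n G ℚ)
    (hz : Cyc (tQ G) n z) : Cyc (tQ K) n (mp n f LinearMap.id z) :=
  cyc_mp (ρ := tQ G) (τ := tQ K) f LinearMap.id (fun _ _ => rfl) n z hz

theorem mp_equiv {G K : Type} [Group G] [Group K] (e : G ≃* K) (n : ℕ) (z : T n G ℚ) :
    mp n e.symm.toMonoidHom LinearMap.id (mp n e.toMonoidHom LinearMap.id z) = z := by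
  rw [mp_comp_id]
  have : (e.symm.toMonoidHom : K → G) ∘ (e.toMonoidHom : G → K) = id := by
    funext x
    exact e.symm_apply_apply x
  rw [this]
  exact mp_id n z

theorem van_congr {G K : Type} [Group G] [Group K] (e : G ≃* K) (n : ℕ)
    (hG : ∀ z : T n G ℚ, Cyc (tQ G) n z → z ∈ LinearMap.range (dd (tQ G) n)) (z : T n K ℚ)
    (hz : Cyc (tQ K) n z) : z ∈ LinearMap.range (dd (tQ K) n) := by
  have h1 := hG _ (cyc_hom e.symm.toMonoidHom n z hz)
  have h2 := range_hom e.toMonoidHom n _ h1
  have h3 := mp_equiv e.symm n z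
  rw [MulEquiv.symm_symm] at h3
  rwa [h3] at h2

end Transport

section General

variable {G₀ : Type} [Group G₀] {A B : Subgroup G₀} {φ : A ≃* B}

/-- The structure of an HNN extension. -/
theorem hn_hnn : Hn (HNNExtension.of (A := A) (B := B) (φ := φ)).range
    (A.map (HNNExtension.of (φ := φ))) HNNExtension.t where
  le := by
    rintro _ ⟨a, _, rfl⟩
    exact ⟨a, rfl⟩
  conj := by
    rintro _ ⟨a, ha, rfl⟩
    refine ⟨φ ⟨a, ha⟩, ?_⟩
    rw [HNNExtension.equiv_eq_conj]
  gen := by
    rw [eq_top_iff]
    intro x _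
    induction x using HNNExtension.induction_on with
    | of g => exact Subgroup.mem_sup_left ⟨g, rfl⟩
    | t => exact Subgroup.mem_sup_right (Subgroup.mem_zpowers _)
    | mul x y hx hy => exact mul_mem (hx trivial) (hy trivial)
    | inv x hx => exact inv_mem (hx trivial)
  univ := by
    intro P _ f p hp
    let f' : G₀ →* P := f.comp (HNNExtension.of (φ := φ)).rangeRestrict
    have hx : ∀ a : A, p * f' a = f' (φ a : G₀) * p := by
      intro a
      have h1 := hp (HNNExtension.of (φ := φ) (a : G₀)) ⟨a, a.2, rfl⟩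
      refine h1.trans (congrArg (fun y => f y * p) (Subtype.ext ?_))
      exact (HNNExtension.equiv_eq_conj (φ := φ) a).symm
    refine ⟨HNNExtension.lift f' p hx, ?_, HNNExtension.lift_t _ _ _⟩
    rintro ⟨_, g, rfl⟩
    exact HNNExtension.lift_of _ _ _ _

/-- The base group of an HNN extension with free associated subgroups. -/
theorem hnn_inj {X : Type} (eA : FreeGroup X ≃* A) (j : ℕ) (x : HQ (j + 2) G₀)
    (hx : hqMap (HNNExtension.of (φ := φ)) (j + 2) x = 0) : x = 0 := by
  obtain ⟨z, hz⟩ := exists_rpr (Rep.trivial ℚ G₀ ℚ) (j + 2) x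
  have h1 := (hz.hq (HNNExtension.of (φ := φ))).eq_zero_iff.mp hx
  rw [hz.eq_zero_iff]
  let e : G₀ ≃* (HNNExtension.of (φ := φ)).range :=
    MonoidHom.ofInjective (HNNExtension.of_injective (φ := φ))
  let eC : FreeGroup X ≃* (A.map (HNNExtension.of (φ := φ))) :=
    eA.trans (A.equivMapOfInjective _ (HNNExtension.of_injective (φ := φ)))
  have h2 : mp (j + 2) (HNNExtension.of (φ := φ)).range.subtype LinearMap.id
      (mp (j + 2) e.toMonoidHom LinearMap.id z) ∈ LinearMap.range (dd (tQ _) (j + 2)) := by
    rw [mp_comp_id]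
    exact h1
  have h3 := (hn_hnn (φ := φ)).inj (j + 2) (van_congr eC (j + 2) (fun z hz =>
    free_van j z ((cyc_succ _ _ _).mp hz))) _ (cyc_hom e.toMonoidHom (j + 2) z hz.cyc) h2
  have h4 := range_hom e.symm.toMonoidHom (j + 2) _ h3
  rwa [mp_equiv] at h4

end General

section Universal

/-- The shift of the generators. -/
def shf : Multiplicative ℤ →* MulAut (FreeGroup ℤ) where
  toFun k := FreeGroup.freeGroupCongr (Equiv.addRight k.toAdd)
  map_one' := by
    apply MulEquiv.toMonoidHom_injective
    apply FreeGroup.ext_hom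
    intro x
    simp
  map_mul' p q := by
    apply MulEquiv.toMonoidHom_injective
    apply FreeGroup.ext_hom
    intro x
    simp [add_comm, add_left_comm]

theorem shf_of (k : Multiplicative ℤ) (x : ℤ) :
    shf k (FreeGroup.of x) = FreeGroup.of (x + k.toAdd) := by
  simp [shf]

/-- A group with two generators which contains a free group of infinite rank. -/
abbrev FF : Type := FreeGroup ℤ ⋊[shf] Multiplicative ℤ

variable {U : Type} [Group U] (π : FreeGroup ℤ →* U)

/-- `w ↦ (1, w)` -/
def iA (U : Type) [Group U] : FreeGroup ℤ →* U × FF :=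
  MonoidHom.prod 1 SemidirectProduct.inl

/-- `w ↦ (π w, w)` -/
def iB : FreeGroup ℤ →* U × FF := MonoidHom.prod π SemidirectProduct.inl

theorem iA_inj : Function.Injective (iA U) := fun _ _ h =>
  SemidirectProduct.inl_injective (congrArg Prod.snd h)

theorem iB_inj : Function.Injective (iB π) := fun _ _ h =>
  SemidirectProduct.inl_injective (congrArg Prod.snd h)

/-- The isomorphism of the associated subgroups. -/
noncomputable def phi : (iA U).range ≃* (iB π).range :=
  (MonoidHom.ofInjective iA_inj).symm.trans (MonoidHom.ofInjective (iB_inj π))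

/-- The group with three generators. -/
abbrev VV : Type := HNNExtension (U × FF) (iA U).range (iB π).range (phi π)

/-- The embedding. -/
noncomputable def kV : U →* VV π := HNNExtension.of.comp (MonoidHom.inl U FF)

/-- The elements of `FF` in `VV`. -/
noncomputable def fV : FF →* VV π := HNNExtension.of.comp (MonoidHom.inr U FF)

theorem kV_inj (j : ℕ) (x : HQ (j + 2) U) (hx : hqMap (kV π) (j + 2) x = 0) : x = 0 := by
  unfold kV at hx
  rw [hqMap_comp] at hx
  have h1 := hnn_inj (φ := phi π) (MonoidHom.ofInjective iA_inj) j _ hx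
  have h2 : hqMap (MonoidHom.fst U FF) (j + 2) (hqMap (MonoidHom.inl U FF) (j + 2) x) = x := by
    rw [← hqMap_comp, MonoidHom.fst_comp_inl, hqMap_id]
  rw [← h2, h1, map_zero]

theorem of_iB (w : FreeGroup ℤ) : (HNNExtension.of (iB π w) : VV π) =
    HNNExtension.t * fV π (SemidirectProduct.inl w) * HNNExtension.t⁻¹ := by
  have h1 := HNNExtension.equiv_eq_conj (φ := phi π) ⟨iA U w, w, rfl⟩
  have h2 : (phi π ⟨iA U w, w, rfl⟩ : U × FF) = iB π w := by
    have h3 : (MonoidHom.ofInjective iA_inj).symm ⟨iA U w, w, rfl⟩ = w := by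
      rw [MulEquiv.symm_apply_eq]
      rfl
    unfold phi
    rw [MulEquiv.trans_apply, h3]
    rfl
  rw [h2] at h1
  exact h1

/-- The elements of `U` become commutators. -/
theorem kV_comm (w : FreeGroup ℤ) : kV π (π w) =
    HNNExtension.t * fV π (SemidirectProduct.inl w) * HNNExtension.t⁻¹ *
      (fV π (SemidirectProduct.inl w))⁻¹ := by
  rw [← of_iB, ← map_inv]
  unfold kV fV
  rw [MonoidHom.comp_apply, MonoidHom.comp_apply, ← map_mul]
  congr 1
  apply Prod.ext
  · change π w = π w * 1
    rw [mul_one]
  · change 1 = SemidirectProduct.inl w * (SemidirectProduct.inl w)⁻¹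
    rw [mul_inv_cancel]

/-- The generators. -/
noncomputable def gnV : Fin 3 → VV π :=
  ![HNNExtension.t, fV π (SemidirectProduct.inl (FreeGroup.of 0)),
    fV π (SemidirectProduct.inr (Multiplicative.ofAdd 1))]

theorem gen_VV (hπ : Function.Surjective π) : Subgroup.closure (Set.range (gnV π)) = ⊤ := by
  set K := Subgroup.closure (Set.range (gnV π)) with hK
  have ht : (HNNExtension.t : VV π) ∈ K := Subgroup.subset_closure ⟨0, rfl⟩
  have ha : fV π (SemidirectProduct.inl (FreeGroup.of 0)) ∈ K := Subgroup.subset_closure ⟨1, rfl⟩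
  have hb : fV π (SemidirectProduct.inr (Multiplicative.ofAdd 1)) ∈ K :=
    Subgroup.subset_closure ⟨2, rfl⟩
  have hr : ∀ k : Multiplicative ℤ, fV π (SemidirectProduct.inr k) ∈ K := by
    intro k
    have : k = (Multiplicative.ofAdd (1 : ℤ)) ^ k.toAdd := by
      rw [← ofAdd_zsmul]
      simp
    rw [this, map_zpow, map_zpow]
    exact zpow_mem hb _
  have hx : ∀ n : ℤ, fV π (SemidirectProduct.inl (FreeGroup.of n)) ∈ K := by
    intro n
    have e : (SemidirectProduct.inl (FreeGroup.of n) : FF) =
        SemidirectProduct.inr (Multiplicative.ofAdd n) * SemidirectProduct.inl (FreeGroup.of 0) *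
          SemidirectProduct.inr (Multiplicative.ofAdd n)⁻¹ := by
      rw [← SemidirectProduct.inl_aut, shf_of]
      congr 2
      simp
    rw [e, map_mul, map_mul]
    exact mul_mem (mul_mem (hr _) ha) (hr _)
  have hw : ∀ w : FreeGroup ℤ, fV π (SemidirectProduct.inl w) ∈ K := by
    intro w
    induction w using FreeGroup.induction_on with
    | C1 => rw [map_one, map_one]; exact one_mem _
    | of x => exact hx x
    | inv_of x ih => rw [map_inv, map_inv]; exact inv_mem ih
    | mul a b ha hb => rw [map_mul, map_mul]; exact mul_mem ha hb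
  have hf : ∀ f : FF, fV π f ∈ K := by
    intro f
    rw [← SemidirectProduct.inl_left_mul_inr_right f, map_mul]
    exact mul_mem (hw _) (hr _)
  have hu : ∀ u : U, kV π u ∈ K := by
    intro u
    obtain ⟨w, rfl⟩ := hπ u
    rw [kV_comm]
    exact mul_mem (mul_mem (mul_mem ht (hw _)) (inv_mem ht)) (inv_mem (hw _))
  rw [eq_top_iff]
  intro x _
  induction x using HNNExtension.induction_on with
  | of g =>
    have e : (HNNExtension.of g : VV π) = kV π g.1 * fV π g.2 := by
      unfold kV fV
      rw [MonoidHom.comp_apply, MonoidHom.comp_apply, ← map_mul]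
      congr 1
      apply Prod.ext
      · exact (mul_one _).symm
      · exact (one_mul _).symm
    rw [e]
    exact mul_mem (hu _) (hf _)
  | t => exact ht
  | mul x y hx hy => exact mul_mem (hx trivial) (hy trivial)
  | inv x hx => exact inv_mem (hx trivial)

end Universal

end Pool.Agent.N316.NV
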